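import Pool.Agent.helper22.DL.SpecE2

/-! EAA: first a priori bound. -/

set_option autoImplicit false

namespace Pool.Agent.DL

open Matrix Complex MeasureTheory Set Filter Topology
open scoped ComplexOrder Manifold ContDiff ComplexConjugate

noncomputable section

theorem EAA_exp {z : ℂ} (hz : z ≠ 0) {a b : ℝ} (h : a = b - 4 * Real.log ‖z‖) :
    Real.exp a = (‖z‖ ^ 4)⁻¹ * Real.exp b := by
  have hn : 0 < ‖z‖ := norm_pos_iff.2 hz
  rw [h, show b - 4 * Real.log ‖z‖ = -(Real.log (‖z‖ ^ 4)) + b by rw [Real.log_pow]; push_cast; ring,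
    Real.exp_add, Real.exp_neg, Real.exp_log (by positivity)]

theorem EAA_fA (p r b : ℂ) (L L' : ℝ) {z : ℂ} (hz : z ≠ 0)
    (hE : Real.exp L = (‖z‖ ^ 4)⁻¹ * Real.exp L') :
    fA (z ^ 4 * p) (z ^ 6 * r) L (z ^ 2 * b) = ‖z‖ ^ 4 * fA p r L' b := by
  have hn : 0 < ‖z‖ := norm_pos_iff.2 hz
  have hx : xx (z ^ 4 * p) (z ^ 2 * b) = z ^ 4 * xx p b := by unfold xx; ring
  have hy : yy (z ^ 4 * p) (z ^ 6 * r) (z ^ 2 * b) = z ^ 6 * yy p r b := by unfold yy; ring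
  have h2 : ∀ L : ℝ, Real.exp (2 * L) = Real.exp L ^ 2 := by
    intro L; rw [two_mul, Real.exp_add, sq]
  unfold fA
  rw [hx, hy, h2, h2, Real.exp_neg, Real.exp_neg, hE, norm_mul, norm_mul, norm_mul,
    norm_pow, norm_pow, norm_pow]
  have := Real.exp_pos L'
  field_simp

theorem EAA_neg {n : ℕ} (H P : Matrix (Fin n) (Fin n) ℂ) : nn H (-P) = nn H P := by
  unfold nn nn2
  simp only [Matrix.conjTranspose_neg, Matrix.mul_neg, Matrix.neg_mul, neg_neg]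

theorem EAA (hMX : MX_stmt) (hLA : LA_stmt) (hEPT : EPT_stmt) (hEHL : EHL_stmt) (hENA : ENA_stmt)
    (hWL : WL_stmt) (hELQ : ELQ_stmt) (hM1 : M1_stmt) (hEEV : EEV_stmt) (hEMX : EMX_stmt) :
    EAA_stmt := by
  intro D L b Λ hD hs hPS hΛ
  let F : Bool → ℂ → ℝ := fun j z => fA (D.p j z) (D.r j z) (L j z) (b j z) / (1 + ‖z‖ ^ 2) ^ 2
  have hFc : ∀ j, Continuous (F j) := by
    intro j
    have h1 := (hD.hp j).continuous
    have h2 := (hD.hr j).continuous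
    have h3 := hPS.cL j
    have h4 := hPS.cb j
    have h5 : Continuous (fun z => fA (D.p j z) (D.r j z) (L j z) (b j z)) := by
      unfold fA xx yy
      fun_prop
    refine h5.div (by fun_prop) ?_
    intro z
    positivity
  have hFg : ∀ j z, z ≠ 0 → F j z = F (!j) z⁻¹ := by
    intro j z hz
    have hn : 0 < ‖z‖ := norm_pos_iff.2 hz
    show fA (D.p j z) (D.r j z) (L j z) (b j z) / (1 + ‖z‖ ^ 2) ^ 2
      = fA (D.p (!j) z⁻¹) (D.r (!j) z⁻¹) (L (!j) z⁻¹) (b (!j) z⁻¹) / (1 + ‖z⁻¹‖ ^ 2) ^ 2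
    rw [hD.gp j z hz, hD.gr j z hz, hPS.gb j z hz,
      EAA_fA _ _ _ _ _ hz (EAA_exp hz (hPS.gL j z hz)), norm_inv]
    have h1 : (1 + ‖z‖ ^ 2) ^ 2 = ‖z‖ ^ 4 * (1 + ‖z‖⁻¹ ^ 2) ^ 2 := by
      field_simp
      ring
    rw [h1, mul_div_mul_left _ _ (by positivity)]
  obtain ⟨j, z₀, hz₀, hm1, hm2⟩ := hEMX F hFc hFg
  set M : ℝ := max (2 * Λ) (32 / D.κ) with hM
  have hκ : 0 < D.κ := by linarith [hD.hκ]
  have hMpos : 0 < M := lt_of_lt_of_le (by positivity) (le_max_right _ _)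
  -- the value at the maximum
  have hkey : fA (D.p j z₀) (D.r j z₀) (L j z₀) (b j z₀) ≤ M := by
    obtain ⟨c, hc, hgood⟩ := hEPT D.κ hD.hκ
    obtain ⟨ψ, om, ρ, hρ, hψ0, hψd, hom, hder, -, -, hSY, -⟩ := hgood z₀ hz₀
    have hSY1 := hSY D L b rfl hPS j
    have hs0 : (fun y => D.s j (ψ y)) = fun _ => 0 := funext fun y => hs j (ψ y)
    rw [hs0] at hSY1
    have hpd : DifferentiableOn ℂ (fun y => D.p j (ψ y)) (Metric.ball 0 ρ) :=
      (hD.hp j).comp_differentiableOn hψd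
    have hrd : DifferentiableOn ℂ (fun y => D.r j (ψ y)) (Metric.ball 0 ρ) :=
      (hD.hr j).comp_differentiableOn hψd
    have hLH := hEHL (Metric.ball 0 ρ) om (fun y => D.p j (ψ y)) (fun y => D.r j (ψ y))
      (fun y => L j (ψ y)) (fun y => b j (ψ y)) Metric.isOpen_ball hpd hrd hSY1
    have hHM : HM (Metric.ball 0 ρ) (fun y => A3 (D.p j (ψ y)) (D.r j (ψ y))) := by
      intro a a'
      fin_cases a <;> fin_cases a' <;> simp [A3] <;> first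
        | exact differentiableOn_const _
        | exact hpd
        | exact hrd
    have hne : ∀ y ∈ Metric.ball (0 : ℂ) ρ, A3 (D.p j (ψ y)) (D.r j (ψ y)) ≠ 0 := by
      intro y _ h0
      have := congrFun (congrFun h0 1) 0
      simp [A3] at this
    obtain ⟨hpos, hsm, hWLz⟩ := hWL 3 (Metric.ball 0 ρ) om (fun y => A3 (D.p j (ψ y)) (D.r j (ψ y)))
      (fun y => H3 (L j (ψ y)) (b j (ψ y))) (fun y => A3 (D.p j (ψ y)) (D.r j (ψ y)))
      Metric.isOpen_ball hHM hHM hLH (fun _ _ => rfl) hne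
    have h00 : (0 : ℂ) ∈ Metric.ball (0 : ℂ) ρ := Metric.mem_ball_self hρ
    set f : ℂ → ℝ := fun y => fA (D.p j (ψ y)) (D.r j (ψ y)) (L j (ψ y)) (b j (ψ y)) with hf
    have hfn : ∀ y, nn (H3 (L j (ψ y)) (b j (ψ y))) (A3 (D.p j (ψ y)) (D.r j (ψ y))) = f y :=
      fun y => (hENA _ _ _ _).2.2.1
    simp only [hfn] at hpos hsm hWLz
    have hf0 : 0 < f 0 := hpos 0 h00
    have hfcd : ContDiffAt ℝ 2 f 0 := hsm.contDiffAt (Metric.isOpen_ball.mem_nhds h00)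
    have hlogf : ContDiffAt ℝ 2 (fun y => Real.log (f y)) 0 := hfcd.log hf0.ne'
    obtain ⟨hq1, hq2⟩ := hELQ ψ ρ hρ hψd
    -- the local maximum
    have hmax : IsLocalMax (fun y => 1 * Real.log (f y) + (-2) * Real.log (1 + ‖ψ y‖ ^ 2)) 0 := by
      filter_upwards [Metric.isOpen_ball.mem_nhds h00] with y hy
      have h1 : F j (ψ y) ≤ F j (ψ 0) := by rw [hψ0]; exact hm1 (ψ y)
      have hfy : 0 < f y := hpos y hy
      have h2 : F j (ψ y) = f y / (1 + ‖ψ y‖ ^ 2) ^ 2 := rfl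
      have h3 : F j (ψ 0) = f 0 / (1 + ‖ψ 0‖ ^ 2) ^ 2 := rfl
      have h4 : ∀ w : ℂ, (0 : ℝ) < 1 + ‖ψ w‖ ^ 2 := fun w => by positivity
      have h5 := Real.log_le_log (by rw [h2]; positivity) h1
      rw [h2, h3, Real.log_div hfy.ne' (by positivity), Real.log_div hf0.ne' (by positivity),
        Real.log_pow, Real.log_pow] at h5
      push_cast at h5
      linarith
    have hcd : ContDiffAt ℝ 2 (fun y => 1 * Real.log (f y) + (-2) * Real.log (1 + ‖ψ y‖ ^ 2)) 0 :=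
      (contDiffAt_const.mul hlogf).add (contDiffAt_const.mul hq1)
    have h6 := hMX _ 0 hcd hmax
    rw [hLA.1 (fun y => Real.log (f y)) (fun y => Real.log (1 + ‖ψ y‖ ^ 2)) 0 1 (-2) hlogf hq1, hq2] at h6
    have h7 := hWLz 0 h00
    have hom0 := hom 0 h00
    -- Henrici
    obtain ⟨l, hl1, hl2⟩ := hEEV (D.p j (ψ 0)) (D.r j (ψ 0))
    obtain ⟨h8, h9⟩ := hM1 (H3 (L j (ψ 0)) (b j (ψ 0))) (A3 (D.p j (ψ 0)) (D.r j (ψ 0))) l
      (hENA (D.p j (ψ 0)) (D.r j (ψ 0)) _ _).1 hl1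
    rw [hfn] at h8 h9
    have h10 : nn (H3 (L j (ψ 0)) (b j (ψ 0)))
        (adj (H3 (L j (ψ 0)) (b j (ψ 0))) (A3 (D.p j (ψ 0)) (D.r j (ψ 0))) * A3 (D.p j (ψ 0)) (D.r j (ψ 0)) -
          A3 (D.p j (ψ 0)) (D.r j (ψ 0)) * adj (H3 (L j (ψ 0)) (b j (ψ 0))) (A3 (D.p j (ψ 0)) (D.r j (ψ 0))))
        = nn (H3 (L j (ψ 0)) (b j (ψ 0)))
        (A3 (D.p j (ψ 0)) (D.r j (ψ 0)) * adj (H3 (L j (ψ 0)) (b j (ψ 0))) (A3 (D.p j (ψ 0)) (D.r j (ψ 0))) -
          adj (H3 (L j (ψ 0)) (b j (ψ 0))) (A3 (D.p j (ψ 0)) (D.r j (ψ 0))) * A3 (D.p j (ψ 0)) (D.r j (ψ 0))) := by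
      rw [← EAA_neg, neg_sub]
    rw [h10] at h7
    set K := nn (H3 (L j (ψ 0)) (b j (ψ 0)))
        (A3 (D.p j (ψ 0)) (D.r j (ψ 0)) * adj (H3 (L j (ψ 0)) (b j (ψ 0))) (A3 (D.p j (ψ 0)) (D.r j (ψ 0))) -
          adj (H3 (L j (ψ 0)) (b j (ψ 0))) (A3 (D.p j (ψ 0)) (D.r j (ψ 0))) * A3 (D.p j (ψ 0)) (D.r j (ψ 0))) with hK
    set S := ∑ i, ‖l i‖ ^ 2 with hS
    have hz1 : ‖z₀‖ ≤ 1 := by simpa using hz₀
    have h11 : ‖1 - z₀ ^ 8‖ ≤ 2 := by
      refine (norm_sub_le _ _).trans ?_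
      rw [norm_one, norm_pow]
      have := pow_le_one₀ (n := 8) (norm_nonneg z₀) hz1
      linarith
    have h12 : ‖deriv ψ 0‖ ^ 2 ≤ 2 * om 0 / D.κ := by
      rw [le_div_iff₀ hκ, mul_comm, hder]
      nlinarith
    have h13 : ‖deriv ψ 0‖ ^ 2 / (1 + ‖ψ 0‖ ^ 2) ^ 2 ≤ 2 * om 0 / D.κ := by
      refine le_trans ?_ h12
      apply div_le_self (by positivity)
      have : 0 ≤ ‖ψ 0‖ ^ 2 := by positivity
      nlinarith
    have h14 : om 0 * K / f 0 ≤ 4 * om 0 / D.κ := by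
      have : 2 * (2 * om 0 / D.κ) = 4 * om 0 / D.κ := by ring
      linarith
    have h15 : K ≤ 4 / D.κ * f 0 := by
      rw [div_le_div_iff₀ hf0 hκ] at h14
      rw [div_mul_eq_mul_div, le_div_iff₀ hκ]
      nlinarith
    have h16 : S ≤ Λ := by
      refine hl2.trans ?_
      rw [hψ0]
      exact hΛ j z₀ hz₀
    have h17 : f 0 ≤ M := by
      by_contra hcon
      push Not at hcon
      have h18 : 2 * Λ < f 0 := lt_of_le_of_lt (le_max_left _ _) hcon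
      have h19 : 32 / D.κ < f 0 := lt_of_le_of_lt (le_max_right _ _) hcon
      have h20 : (f 0 / 2) ^ 2 / 2 ≤ 4 / D.κ * f 0 := by
        refine le_trans ?_ (h9.trans h15)
        have h21 : f 0 / 2 ≤ f 0 - S := by linarith
        have h22 : (f 0 / 2) ^ 2 ≤ (f 0 - S) ^ 2 := by
          apply pow_le_pow_left₀ (by positivity) h21
        linarith
      have h23 : f 0 ≤ 32 / D.κ := by
        have h24 : f 0 * f 0 ≤ (32 / D.κ) * f 0 := by
          have : (32 / D.κ) * f 0 = 8 * (4 / D.κ * f 0) := by ring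
          nlinarith
        exact le_of_mul_le_mul_right h24 hf0
      linarith
    have h25 : f 0 = fA (D.p j z₀) (D.r j z₀) (L j z₀) (b j z₀) := by
      rw [hf]
      simp only [hψ0]
    rw [← h25]
    exact h17
  have hFz : F j z₀ ≤ M := by
    show fA (D.p j z₀) (D.r j z₀) (L j z₀) (b j z₀) / (1 + ‖z₀‖ ^ 2) ^ 2 ≤ M
    rw [div_le_iff₀ (by positivity)]
    have h1 : (1 : ℝ) ≤ (1 + ‖z₀‖ ^ 2) ^ 2 := by
      have : 0 ≤ ‖z₀‖ ^ 2 := by positivity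
      nlinarith
    nlinarith
  intro j' z hz
  have hFj : F j' z ≤ M := by
    by_cases h : j' = j
    · rw [h]; exact (hm1 z).trans hFz
    · have h' : j' = !j := by
        cases j <;> cases j' <;> simp_all
      rw [h']; exact (hm2 z).trans hFz
  have hz1 : ‖z‖ ≤ 1 := by simpa using hz
  have h3 : fA (D.p j' z) (D.r j' z) (L j' z) (b j' z) = F j' z * (1 + ‖z‖ ^ 2) ^ 2 := by
    show _ = fA (D.p j' z) (D.r j' z) (L j' z) (b j' z) / (1 + ‖z‖ ^ 2) ^ 2 * (1 + ‖z‖ ^ 2) ^ 2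
    rw [div_mul_cancel₀]
    positivity
  rw [h3]
  have h4 : (1 + ‖z‖ ^ 2) ^ 2 ≤ 4 := by
    have h5 : ‖z‖ ^ 2 ≤ 1 := by
      have := pow_le_one₀ (n := 2) (norm_nonneg z) hz1
      exact this
    have h6 : 0 ≤ ‖z‖ ^ 2 := by positivity
    nlinarith
  calc F j' z * (1 + ‖z‖ ^ 2) ^ 2 ≤ M * (1 + ‖z‖ ^ 2) ^ 2 := by gcongr
    _ ≤ M * 4 := by gcongr
    _ = 4 * M := by ring

end

end Pool.Agent.DL
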