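import Pool.Agent.helper65.DL.EIS

/-! EIL: extension of a solution of the linearised fixed point equation to the plane. -/

set_option autoImplicit false

namespace Pool.Agent.DL

open Matrix Complex MeasureTheory Set Filter Topology
open scoped ComplexOrder Manifold ContDiff ComplexConjugate

noncomputable section

theorem EIL_QQ (p r b b' : ℂ) (L L' l : ℝ) {z : ℂ} (hz : z ≠ 0)
    (hE : Real.exp L = (‖z‖ ^ 4)⁻¹ * Real.exp L') :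
    QQ' (z ^ 4 * p) (z ^ 6 * r) L (z ^ 2 * b) l (z ^ 2 * b') = z ^ 2 * QQ' p r L' b l b' := by
  have hc := EIS_conj_ne hz
  unfold QQ'
  rw [EIS_xx, EIS_yy, EIS_exp2, EIS_exp2, hE]
  push_cast
  rw [show ((‖z‖ : ℂ) ^ 4) = (z * conj z) ^ 2 by rw [← EIS_n4]; push_cast; ring]
  simp only [map_mul, map_pow, map_neg]
  field_simp

theorem EIL_re (z a b : ℂ) (n : ℕ) : (conj (z ^ n * a) * (z ^ n * b)).re = ‖z‖ ^ (2 * n) * (conj a * b).re := by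
  have h : conj (z ^ n * a) * (z ^ n * b) = ((‖z‖ ^ (2 * n) : ℝ) : ℂ) * (conj a * b) := by
    rw [pow_mul, Complex.ofReal_pow, EIS_n2]
    simp only [map_mul, map_pow]
    ring
  rw [h, Complex.re_ofReal_mul]

theorem EIL_RR (p r b b' : ℂ) (L L' l : ℝ) {z : ℂ} (hz : z ≠ 0)
    (hE : Real.exp L = (‖z‖ ^ 4)⁻¹ * Real.exp L') :
    RR' (z ^ 4 * p) (z ^ 6 * r) L (z ^ 2 * b) l (z ^ 2 * b') = ‖z‖ ^ 4 * RR' p r L' b l b' := by
  have hn : 0 < ‖z‖ := norm_pos_iff.2 hz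
  have h1 : (conj (z ^ 4 * xx p b) * (-3 * (z ^ 2 * b) * (z ^ 2 * b'))).re
      = ‖z‖ ^ 8 * (conj (xx p b) * (-3 * b * b')).re := by
    rw [show (-3 * (z ^ 2 * b) * (z ^ 2 * b')) = z ^ 4 * (-3 * b * b') by ring]
    exact EIL_re z _ _ 4
  have h2 : (conj (z ^ 6 * yy p r b) * (2 * (z ^ 4 * p) * (z ^ 2 * b') - 3 * (z ^ 2 * b) ^ 2 * (z ^ 2 * b'))).re
      = ‖z‖ ^ 12 * (conj (yy p r b) * (2 * p * b' - 3 * b ^ 2 * b')).re := by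
    rw [show (2 * (z ^ 4 * p) * (z ^ 2 * b') - 3 * (z ^ 2 * b) ^ 2 * (z ^ 2 * b'))
      = z ^ 6 * (2 * p * b' - 3 * b ^ 2 * b') by ring]
    exact EIL_re z _ _ 6
  unfold RR'
  rw [EIS_xx, EIS_yy, h1, h2, EIS_exp2, EIS_exp2, Real.exp_neg, Real.exp_neg, hE, norm_mul, norm_mul,
    norm_pow, norm_pow]
  have := Real.exp_pos L'
  field_simp

theorem EIL_phi {D : Dat} (hD : D.Valid) (U : Bool → ℂ → ℝ) (B : Bool → ℂ → ℂ) (U' : Bool → ℂ → ℝ)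
    (B' : Bool → ℂ → ℂ) (j : Bool) {z : ℂ}
    (hz : z ≠ 0) (hU : U j z = U (!j) z⁻¹) (hB : B j z = z ^ 2 * B (!j) z⁻¹)
    (hU' : U' j z = U' (!j) z⁻¹) (hB' : B' j z = z ^ 2 * B' (!j) z⁻¹) :
    phi' D U B U' B' j z = z⁻¹ ^ 4 * (conj z)⁻¹ ^ 2 * phi' D U B U' B' (!j) z⁻¹ := by
  have hc := EIS_conj_ne hz
  unfold phi'
  rw [hD.gp j z hz, hD.gr j z hz, hB, hB', hU', EIL_QQ _ _ _ _ _ _ _ hz (EIS_Ls U j hz hU), EIS_Wt D.κ hz]
  push_cast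
  rw [show ((‖z‖ : ℂ) ^ 8) = (z * conj z) ^ 4 by rw [← EIS_n8]; push_cast; ring]
  simp only [map_mul, map_pow]
  field_simp

theorem EIL_bet (U : Bool → ℂ → ℝ) (G : Bool → ℂ → ℂ) (U' : Bool → ℂ → ℝ) (G' : Bool → ℂ → ℂ) (j : Bool) {z : ℂ}
    (hz : z ≠ 0) (hU : U j z = U (!j) z⁻¹) (hG : G j z = -z⁻¹ ^ 4 * G (!j) z⁻¹)
    (hU' : U' j z = U' (!j) z⁻¹) (hG' : G' j z = -z⁻¹ ^ 4 * G' (!j) z⁻¹) :
    bet' U G U' G' j z = -z ^ 2 * (conj z)⁻¹ ^ 2 * bet' U G U' G' (!j) z⁻¹ := by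
  have hc := EIS_conj_ne hz
  have hn : 0 < ‖z‖ := norm_pos_iff.2 hz
  have h1 : Real.exp (-(Ls (U j) z)) = ‖z‖ ^ 4 * Real.exp (-(Ls (U (!j)) z⁻¹)) := by
    rw [Real.exp_neg, EIS_Ls U j hz hU, mul_inv, inv_inv, Real.exp_neg]
  unfold bet'
  rw [h1, hG, hG', hU']
  push_cast
  rw [show ((‖z‖ : ℂ) ^ 4) = (z * conj z) ^ 2 by rw [← EIS_n4]; push_cast; ring]
  simp only [map_mul, map_pow, map_neg, map_inv₀]
  field_simp
  ring

theorem EIL_Fd {D : Dat} (hD : D.Valid) (U : Bool → ℂ → ℝ) (B G : Bool → ℂ → ℂ) (U' : Bool → ℂ → ℝ)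
    (B' G' : Bool → ℂ → ℂ) (j : Bool) {z : ℂ}
    (hz : z ≠ 0) (hU : U j z = U (!j) z⁻¹) (hB : B j z = z ^ 2 * B (!j) z⁻¹)
    (hG : G j z = -z⁻¹ ^ 4 * G (!j) z⁻¹)
    (hU' : U' j z = U' (!j) z⁻¹) (hB' : B' j z = z ^ 2 * B' (!j) z⁻¹)
    (hG' : G' j z = -z⁻¹ ^ 4 * G' (!j) z⁻¹) :
    Fd' D U B G U' B' G' j z = ‖z‖⁻¹ ^ 4 * Fd' D U B G U' B' G' (!j) z⁻¹ := by
  have hn : 0 < ‖z‖ := norm_pos_iff.2 hz
  have h1 : Real.exp (-(Ls (U j) z)) = ‖z‖ ^ 4 * Real.exp (-(Ls (U (!j)) z⁻¹)) := by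
    rw [Real.exp_neg, EIS_Ls U j hz hU, mul_inv, inv_inv, Real.exp_neg]
  have h2 : (conj (-z⁻¹ ^ 4 * G (!j) z⁻¹) * (-z⁻¹ ^ 4 * G' (!j) z⁻¹)).re
      = (‖z‖ ^ 8)⁻¹ * (conj (G (!j) z⁻¹) * G' (!j) z⁻¹).re := by
    have h3 : (conj (-z⁻¹ ^ 4 * G (!j) z⁻¹) * (-z⁻¹ ^ 4 * G' (!j) z⁻¹))
        = conj (z⁻¹ ^ 4 * G (!j) z⁻¹) * (z⁻¹ ^ 4 * G' (!j) z⁻¹) := by
      rw [neg_mul, neg_mul, map_neg, neg_mul_neg]
    rw [h3, EIL_re, norm_inv, ← inv_pow]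
  unfold Fd'
  rw [h1, hG, hG', hU', hD.gp j z hz, hD.gr j z hz, hB, hB', EIL_RR _ _ _ _ _ _ _ hz (EIS_Ls U j hz hU),
    EIS_Wt D.κ hz, h2, norm_mul, norm_neg, norm_pow, norm_inv]
  field_simp

/-! ### Densities of a solution of the linearised equation -/

theorem EIL_QQ_cont {D : Dat} (hD : D.Valid) {u : Bool → ℂ → ℝ} {b : Bool → ℂ → ℂ} {u' : Bool → ℂ → ℝ}
    {b' : Bool → ℂ → ℂ} (cu : ∀ j, ContinuousOn (u j) Dk) (cb : ∀ j, ContinuousOn (b j) Dk)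
    (cu' : ∀ j, ContinuousOn (u' j) Dk) (cb' : ∀ j, ContinuousOn (b' j) Dk) (j : Bool) :
    ContinuousOn (fun z => QQ' (D.p j z) (D.r j z) (Ls (u j) z) (b j z) (u' j z) (b' j z)) Dk := by
  have hL := EIS_Ls_cont (cu j)
  have hp := (hD.hp j).continuous
  have hr := (hD.hr j).continuous
  have hb := cb j
  have hu' := cu' j
  have hb' := cb' j
  unfold QQ' xx yy
  fun_prop

theorem EIL_RR_cont {D : Dat} (hD : D.Valid) {u : Bool → ℂ → ℝ} {b : Bool → ℂ → ℂ} {u' : Bool → ℂ → ℝ}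
    {b' : Bool → ℂ → ℂ} (cu : ∀ j, ContinuousOn (u j) Dk) (cb : ∀ j, ContinuousOn (b j) Dk)
    (cu' : ∀ j, ContinuousOn (u' j) Dk) (cb' : ∀ j, ContinuousOn (b' j) Dk) (j : Bool) :
    ContinuousOn (fun z => RR' (D.p j z) (D.r j z) (Ls (u j) z) (b j z) (u' j z) (b' j z)) Dk := by
  have hL := EIS_Ls_cont (cu j)
  have hp := (hD.hp j).continuous
  have hr := (hD.hr j).continuous
  have hb := cb j
  have hu' := cu' j
  have hb' := cb' j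
  have h1 : ContinuousOn (fun z => (conj (xx (D.p j z) (b j z)) * (-3 * b j z * b' j z)).re) Dk := by
    refine Complex.continuous_re.comp_continuousOn ?_
    unfold xx
    fun_prop
  have h2 : ContinuousOn (fun z => (conj (yy (D.p j z) (D.r j z) (b j z)) *
      (2 * D.p j z * b' j z - 3 * b j z ^ 2 * b' j z)).re) Dk := by
    refine Complex.continuous_re.comp_continuousOn ?_
    unfold yy
    fun_prop
  have h3 : ContinuousOn (fun z => ‖xx (D.p j z) (b j z)‖ ^ 2) Dk := by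
    unfold xx
    fun_prop
  have h4 : ContinuousOn (fun z => ‖yy (D.p j z) (D.r j z) (b j z)‖ ^ 2) Dk := by
    unfold yy
    fun_prop
  unfold RR'
  fun_prop

theorem EIL_phi_dens (hKC : EKC_stmt) {D : Dat} (hD : D.Valid) {u : Bool → ℂ → ℝ} {b : Bool → ℂ → ℂ}
    {u' : Bool → ℂ → ℝ} {b' : Bool → ℂ → ℂ} (cu : ∀ j, ContinuousOn (u j) Dk) (cb : ∀ j, ContinuousOn (b j) Dk)
    (cu' : ∀ j, ContinuousOn (u' j) Dk) (cb' : ∀ j, ContinuousOn (b' j) Dk) :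
    (∀ j, AEStronglyMeasurable (phi' D u b u' b' j) (volume.restrict Dk)) ∧
    ∃ C, 0 ≤ C ∧ ∀ j, ∀ z ∈ Dk, z ^ 8 ≠ 1 → ‖phi' D u b u' b' j z‖ ≤ C * Wt 1 z := by
  have hW : ContinuousOn (Wt D.κ) Ns := (hKC.2.2.2.2.2.2.1 D.κ).continuousOn
  constructor
  · intro j
    apply EIS_meas hKC
    have h1 : ContinuousOn (fun z => QQ' (D.p j z) (D.r j z) (Ls (u j) z) (b j z) (u' j z) (b' j z)) (Dk ∩ Ns) :=
      (EIL_QQ_cont hD cu cb cu' cb' j).mono inter_subset_left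
    have h2 : ContinuousOn (Wt D.κ) (Dk ∩ Ns) := hW.mono inter_subset_right
    unfold phi'
    fun_prop
  · obtain ⟨C, hC0, hC⟩ := EIS_bd (EIL_QQ_cont hD cu cb cu' cb')
    have hκ : 0 ≤ D.κ := by linarith [hD.hκ]
    refine ⟨D.κ * C, by positivity, ?_⟩
    intro j z hz _
    unfold phi'
    rw [norm_mul, RCLike.norm_conj, Complex.norm_real, Real.norm_eq_abs, EIS_Wt1,
      abs_of_nonneg (mul_nonneg hκ (EIS_Wt_nonneg z))]
    have := hC j z hz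
    have h0 := EIS_Wt_nonneg z
    calc D.κ * Wt 1 z * ‖QQ' (D.p j z) (D.r j z) (Ls (u j) z) (b j z) (u' j z) (b' j z)‖
        ≤ D.κ * Wt 1 z * C := by gcongr
      _ = D.κ * C * Wt 1 z := by ring

theorem EIL_bet_dens (hKC : EKC_stmt) {u : Bool → ℂ → ℝ} {g : Bool → ℂ → ℂ} {u' : Bool → ℂ → ℝ}
    {g' : Bool → ℂ → ℂ}
    (cu : ∀ j, ContinuousOn (u j) Dk) (cg : ∀ j, ContinuousOn (g j) (Dk ∩ Ns))
    (cu' : ∀ j, ContinuousOn (u' j) Dk) (cg' : ∀ j, ContinuousOn (g' j) (Dk ∩ Ns)) {C₀ C₁ : ℝ}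
    (hg : ∀ j, ∀ z ∈ Dk, z ^ 8 ≠ 1 → ‖g j z‖ ≤ C₀ * (mt z)⁻¹)
    (hg' : ∀ j, ∀ z ∈ Dk, z ^ 8 ≠ 1 → ‖g' j z‖ ≤ C₁ * (mt z)⁻¹) :
    (∀ j, AEStronglyMeasurable (bet' u g u' g' j) (volume.restrict Dk)) ∧
    ∃ C, 0 ≤ C ∧ ∀ j, ∀ z ∈ Dk, z ^ 8 ≠ 1 → ‖bet' u g u' g' j z‖ ≤ C * (mt z)⁻¹ := by
  constructor
  · intro j
    apply EIS_meas hKC
    have h1 : ContinuousOn (Ls (u j)) (Dk ∩ Ns) := (EIS_Ls_cont (cu j)).mono inter_subset_left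
    have h2 := cg j
    have h3 := cg' j
    have h4 : ContinuousOn (u' j) (Dk ∩ Ns) := (cu' j).mono inter_subset_left
    unfold bet'
    fun_prop
  · have hf : ∀ j, ContinuousOn (fun z => Real.exp (-(Ls (u j) z))) Dk := by
      intro j
      have := EIS_Ls_cont (cu j)
      fun_prop
    obtain ⟨M, hM0, hM⟩ := EIS_bdR hf
    obtain ⟨M', hM0', hM'⟩ := EIS_bdR cu'
    refine ⟨M * (|C₁| + M' * |C₀|), by positivity, ?_⟩
    intro j z hz h8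
    unfold bet'
    rw [norm_mul, Complex.norm_real, Real.norm_eq_abs]
    have h1 := hM j z hz
    have h1' := hM' j z hz
    have h2 := hg j z hz h8
    have h2' := hg' j z hz h8
    have h3 := EIS_mt_nonneg z
    have h4 : C₀ * (mt z)⁻¹ ≤ |C₀| * (mt z)⁻¹ := by gcongr; exact le_abs_self _
    have h4' : C₁ * (mt z)⁻¹ ≤ |C₁| * (mt z)⁻¹ := by gcongr; exact le_abs_self _
    have h5 : ‖conj (g' j z) - u' j z * conj (g j z)‖ ≤ |C₁| * (mt z)⁻¹ + M' * (|C₀| * (mt z)⁻¹) := by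
      refine (norm_sub_le _ _).trans ?_
      rw [norm_mul, RCLike.norm_conj, RCLike.norm_conj, Complex.norm_real, Real.norm_eq_abs]
      gcongr
      · exact h2'.trans h4'
      · exact h2.trans h4
    calc |Real.exp (-(Ls (u j) z))| * ‖conj (g' j z) - u' j z * conj (g j z)‖
        ≤ M * (|C₁| * (mt z)⁻¹ + M' * (|C₀| * (mt z)⁻¹)) := by gcongr
      _ = M * (|C₁| + M' * |C₀|) * (mt z)⁻¹ := by ring

theorem EIL_Fd_dens (hKC : EKC_stmt) {D : Dat} (hD : D.Valid) {u : Bool → ℂ → ℝ} {b g : Bool → ℂ → ℂ}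
    {u' : Bool → ℂ → ℝ} {b' g' : Bool → ℂ → ℂ}
    (cu : ∀ j, ContinuousOn (u j) Dk) (cb : ∀ j, ContinuousOn (b j) Dk)
    (cg : ∀ j, ContinuousOn (g j) (Dk ∩ Ns))
    (cu' : ∀ j, ContinuousOn (u' j) Dk) (cb' : ∀ j, ContinuousOn (b' j) Dk)
    (cg' : ∀ j, ContinuousOn (g' j) (Dk ∩ Ns)) {C₀ C₁ : ℝ}
    (hg : ∀ j, ∀ z ∈ Dk, z ^ 8 ≠ 1 → ‖g j z‖ ≤ C₀ * (mt z)⁻¹)
    (hg' : ∀ j, ∀ z ∈ Dk, z ^ 8 ≠ 1 → ‖g' j z‖ ≤ C₁ * (mt z)⁻¹) :
    (∀ j, AEStronglyMeasurable (Fd' D u b g u' b' g' j) (volume.restrict Dk)) ∧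
    ∃ C, 0 ≤ C ∧ ∀ j, ∀ z ∈ Dk, z ^ 8 ≠ 1 → |Fd' D u b g u' b' g' j z| ≤ C * Wt 1 z := by
  have hW : ContinuousOn (Wt D.κ) Ns := (hKC.2.2.2.2.2.2.1 D.κ).continuousOn
  constructor
  · intro j
    apply EIS_meas hKC
    have h1 : ContinuousOn (Ls (u j)) (Dk ∩ Ns) := (EIS_Ls_cont (cu j)).mono inter_subset_left
    have h2 := cg j
    have h2' := cg' j
    have h3 : ContinuousOn (fun z => RR' (D.p j z) (D.r j z) (Ls (u j) z) (b j z) (u' j z) (b' j z)) (Dk ∩ Ns) :=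
      (EIL_RR_cont hD cu cb cu' cb' j).mono inter_subset_left
    have h4 : ContinuousOn (Wt D.κ) (Dk ∩ Ns) := hW.mono inter_subset_right
    have h5 : ContinuousOn (u' j) (Dk ∩ Ns) := (cu' j).mono inter_subset_left
    have h6 : ContinuousOn (fun z => (conj (g j z) * g' j z).re) (Dk ∩ Ns) := by
      refine Complex.continuous_re.comp_continuousOn ?_
      fun_prop
    unfold Fd'
    fun_prop
  · have hf : ∀ j, ContinuousOn (fun z => Real.exp (-(Ls (u j) z))) Dk := by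
      intro j
      have := EIS_Ls_cont (cu j)
      fun_prop
    obtain ⟨M, hM0, hM⟩ := EIS_bdR hf
    obtain ⟨M', hM0', hM'⟩ := EIS_bdR cu'
    obtain ⟨M2, hM20, hM2⟩ := EIS_bdR (EIL_RR_cont hD cu cb cu' cb')
    have hκ : 0 ≤ D.κ := by linarith [hD.hκ]
    refine ⟨M * (2 * (|C₀| * |C₁|) + M' * |C₀| ^ 2) * 2 + D.κ * M2, by positivity, ?_⟩
    intro j z hz h8
    have h1 := hM j z hz
    have h1' := hM' j z hz
    have h3 := hM2 j z hz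
    have h4 := EIS_Wt_nonneg z
    have h5 := EIS_mt2 hz h8
    have h30 := EIS_mt_nonneg z
    have h2 : ‖g j z‖ ≤ |C₀| * (mt z)⁻¹ := (hg j z hz h8).trans (by gcongr; exact le_abs_self _)
    have h2' : ‖g' j z‖ ≤ |C₁| * (mt z)⁻¹ := (hg' j z hz h8).trans (by gcongr; exact le_abs_self _)
    have h6 : |(conj (g j z) * g' j z).re| ≤ (|C₀| * |C₁|) * (mt z)⁻¹ ^ 2 := by
      refine (Complex.abs_re_le_norm _).trans ?_
      rw [norm_mul, RCLike.norm_conj]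
      calc ‖g j z‖ * ‖g' j z‖ ≤ (|C₀| * (mt z)⁻¹) * (|C₁| * (mt z)⁻¹) := by gcongr
        _ = _ := by ring
    have h7 : |2 * (conj (g j z) * g' j z).re - u' j z * ‖g j z‖ ^ 2|
        ≤ (2 * (|C₀| * |C₁|) + M' * |C₀| ^ 2) * (mt z)⁻¹ ^ 2 := by
      refine (abs_sub _ _).trans ?_
      rw [abs_mul, abs_mul, abs_of_nonneg (show (0 : ℝ) ≤ 2 by norm_num),
        abs_of_nonneg (sq_nonneg ‖g j z‖)]
      calc 2 * |(conj (g j z) * g' j z).re| + |u' j z| * ‖g j z‖ ^ 2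
          ≤ 2 * ((|C₀| * |C₁|) * (mt z)⁻¹ ^ 2) + M' * (|C₀| * (mt z)⁻¹) ^ 2 := by gcongr
        _ = _ := by ring
    unfold Fd'
    calc |Real.exp (-(Ls (u j) z)) * (2 * (conj (g j z) * g' j z).re - u' j z * ‖g j z‖ ^ 2) +
          Wt D.κ z * RR' (D.p j z) (D.r j z) (Ls (u j) z) (b j z) (u' j z) (b' j z)|
        ≤ |Real.exp (-(Ls (u j) z)) * (2 * (conj (g j z) * g' j z).re - u' j z * ‖g j z‖ ^ 2)| +
          |Wt D.κ z * RR' (D.p j z) (D.r j z) (Ls (u j) z) (b j z) (u' j z) (b' j z)| := abs_add_le _ _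
      _ ≤ M * ((2 * (|C₀| * |C₁|) + M' * |C₀| ^ 2) * (2 * Wt 1 z)) + (D.κ * Wt 1 z) * M2 := by
          gcongr ?_ + ?_
          · rw [abs_mul]
            gcongr
            refine h7.trans ?_
            gcongr
          · rw [abs_mul, EIS_Wt1, abs_of_nonneg (mul_nonneg hκ h4)]
            gcongr
      _ = _ := by ring

/-! ### The main statement -/

theorem EIL (hKC : EKC_stmt) (hIB : EIB_stmt) (hIG : EIG_stmt) (hIU : EIU_stmt) : EIL_stmt := by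
  intro D u b g c P u' b' g' c' P' hD hS hL
  have hGS := EIS hKC hIB hIG hIU D u b g c P hD hS
  obtain ⟨Cg, hCg⟩ := hGS.bg 2
  have hDk2 : ∀ z ∈ Dk, z ∈ Metric.ball (0 : ℂ) 2 := by
    intro z hz
    have : ‖z‖ ≤ 1 := by simpa using hz
    rw [Metric.mem_ball, dist_zero_right]
    linarith
  have hg : ∀ j, ∀ z ∈ Dk, z ^ 8 ≠ 1 → ‖g j z‖ ≤ Cg * (mt z)⁻¹ := by
    intro j z hz h8
    rw [hS.eg j z hz h8]
    exact hCg j z (hDk2 z hz) h8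
  have cg : ∀ j, ContinuousOn (g j) (Dk ∩ Ns) := fun j =>
    ((hGS.cg j).mono inter_subset_right).congr (fun z hz => hS.eg j z hz.1 hz.2)
  obtain ⟨mphi, Cp, hCp0, hCp⟩ := EIL_phi_dens hKC hD hS.cu hS.cb hL.cu hL.cb
  obtain ⟨gc, gbd, gg, gr⟩ := hIG (phi' D u b u' b') Cp mphi hCp hL.mom
  have cg' : ∀ j, ContinuousOn (g' j) (Dk ∩ Ns) := fun j =>
    ((gc j).mono inter_subset_right).congr (fun z hz => hL.eg j z hz.1 hz.2)
  obtain ⟨Cg', hCg'⟩ := gbd 2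
  have hg' : ∀ j, ∀ z ∈ Dk, z ^ 8 ≠ 1 → ‖g' j z‖ ≤ Cg' * (mt z)⁻¹ := by
    intro j z hz h8
    rw [hL.eg j z hz h8]
    exact hCg' j z (hDk2 z hz) h8
  obtain ⟨mbet, Cb, hCb0, hCb⟩ := EIL_bet_dens hKC hS.cu cg hL.cu cg' hg hg'
  obtain ⟨bc, bg, br⟩ := hIB (bet' u g u' g') Cb P' mbet hCb
  obtain ⟨mFd, CF, hCF0, hCF⟩ := EIL_Fd_dens hKC hD hS.cu hS.cb cg hL.cu hL.cb cg' hg hg'
  obtain ⟨uc, ug, ur⟩ := hIU (Fd' D u b g u' b' g') CF mFd hCF hL.mass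
  set U : Bool → ℂ → ℝ := fun j z => TU (Fd D u b g) j z + c with hUdef
  set B : Bool → ℂ → ℂ := fun j z => TB (bet u g) j z + Pq P j z with hBdef
  set G : Bool → ℂ → ℂ := TG (phi D u b) with hGdef
  set U' : Bool → ℂ → ℝ := fun j z => TU (Fd' D u b g u' b' g') j z + c' with hUdef'
  set B' : Bool → ℂ → ℂ := fun j z => TB (bet' u g u' g') j z + Pq P' j z with hBdef'
  set G' : Bool → ℂ → ℂ := TG (phi' D u b u' b') with hGdef'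
  have gU := hGS.gu
  have gB := hGS.gb
  have gG := hGS.gg
  have eU : ∀ j, ∀ z ∈ Dk, u j z = U j z := fun j z hz => hS.eu j z hz
  have eB : ∀ j, ∀ z ∈ Dk, b j z = B j z := fun j z hz => hS.eb j z hz
  have eG : ∀ j, ∀ z ∈ Dk, z ^ 8 ≠ 1 → g j z = G j z := fun j z hz h8 => hS.eg j z hz h8
  have eU' : ∀ j, ∀ z ∈ Dk, u' j z = U' j z := fun j z hz => hL.eu j z hz
  have eB' : ∀ j, ∀ z ∈ Dk, b' j z = B' j z := fun j z hz => hL.eb j z hz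
  have eG' : ∀ j, ∀ z ∈ Dk, z ^ 8 ≠ 1 → g' j z = G' j z := fun j z hz h8 => hL.eg j z hz h8
  have gU' : ∀ j z, z ≠ 0 → U' j z = U' (!j) z⁻¹ := by
    intro j z hz
    show TU (Fd' D u b g u' b' g') j z + c' = TU (Fd' D u b g u' b' g') (!j) z⁻¹ + c'
    rw [ug j z hz]
  have gB' : ∀ j z, z ≠ 0 → B' j z = z ^ 2 * B' (!j) z⁻¹ := fun j z hz => bg j z hz
  have gG' : ∀ j z, z ≠ 0 → z ^ 8 ≠ 1 → G' j z = -z⁻¹ ^ 4 * G' (!j) z⁻¹ := fun j z hz h8 => gg j z hz h8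
  have eLs : ∀ j, ∀ z ∈ Dk, Ls (u j) z = Ls (U j) z := by
    intro j z hz
    unfold Ls
    rw [eU j z hz]
  have ephi : ∀ j, ∀ z ∈ Dk, z ^ 8 ≠ 1 → phi' D u b u' b' j z = phi' D U B U' B' j z := by
    intro j z hz _
    unfold phi'
    rw [eLs j z hz, eB j z hz, eU' j z hz, eB' j z hz]
  have ebet : ∀ j, ∀ z ∈ Dk, z ^ 8 ≠ 1 → bet' u g u' g' j z = bet' U G U' G' j z := by
    intro j z hz h8
    unfold bet'
    rw [eLs j z hz, eG j z hz h8, eU' j z hz, eG' j z hz h8]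
  have eFd : ∀ j, ∀ z ∈ Dk, z ^ 8 ≠ 1 → Fd' D u b g u' b' g' j z = Fd' D U B G U' B' G' j z := by
    intro j z hz h8
    unfold Fd'
    rw [eLs j z hz, eB j z hz, eG j z hz h8, eU' j z hz, eB' j z hz, eG' j z hz h8]
  have aB : ∀ j, exB (bet' u g u' g') j =ᵐ[volume] bet' U G U' G' j := by
    intro j
    refine EIS_ex (f1 := fun z => bet' u g u' g' j z)
      (f2 := fun z => -z ^ 2 * (conj z)⁻¹ ^ 2 * bet' u g u' g' (!j) z⁻¹) (f := bet' U G U' G' j) (ebet j) ?_ hKC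
    intro z hz h8
    obtain ⟨h0, hi⟩ := EIS_inv_mem hz
    rw [EIL_bet U G U' G' j h0 (gU j z h0) (gG j z h0 h8) (gU' j z h0) (gG' j z h0 h8),
      ebet (!j) z⁻¹ hi (EIS_inv8 h8)]
  have aG : ∀ j, exG (phi' D u b u' b') j =ᵐ[volume] phi' D U B U' B' j := by
    intro j
    refine EIS_ex (f1 := fun z => phi' D u b u' b' j z)
      (f2 := fun z => z⁻¹ ^ 4 * (conj z)⁻¹ ^ 2 * phi' D u b u' b' (!j) z⁻¹) (f := phi' D U B U' B' j)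
      (ephi j) ?_ hKC
    intro z hz h8
    obtain ⟨h0, hi⟩ := EIS_inv_mem hz
    rw [EIL_phi hD U B U' B' j h0 (gU j z h0) (gB j z h0) (gU' j z h0) (gB' j z h0),
      ephi (!j) z⁻¹ hi (EIS_inv8 h8)]
  have aF : ∀ j, exF (Fd' D u b g u' b' g') j =ᵐ[volume] Fd' D U B G U' B' G' j := by
    intro j
    refine EIS_ex (f1 := fun z => Fd' D u b g u' b' g' j z)
      (f2 := fun z => ‖z‖⁻¹ ^ 4 * Fd' D u b g u' b' g' (!j) z⁻¹) (f := Fd' D U B G U' B' G' j)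
      (eFd j) ?_ hKC
    intro z hz h8
    obtain ⟨h0, hi⟩ := EIS_inv_mem hz
    rw [EIL_Fd hD U B G U' B' G' j h0 (gU j z h0) (gB j z h0) (gG j z h0 h8) (gU' j z h0) (gB' j z h0)
      (gG' j z h0 h8), eFd (!j) z⁻¹ hi (EIS_inv8 h8)]
  refine ⟨?_, bc, gc, gbd, gU', gB', gG', ?_, ?_, ?_⟩
  · intro j
    exact (uc j).add continuous_const
  · intro j R hR
    obtain ⟨hi, h, hh, he⟩ := br j R hR
    refine ⟨EIS_int (aB j) hi, h, hh, fun z hz _ => ?_⟩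
    rw [← EIS_TC (aB j)]
    exact he z hz
  · intro j R hR
    obtain ⟨hi, h, hh, he⟩ := gr j R hR
    refine ⟨EIS_int (aG j) hi, h, hh, fun z hz h8 => ?_⟩
    rw [← EIS_TC (aG j)]
    exact he z hz h8
  · intro j R hR
    obtain ⟨hi, h, hh, he⟩ := ur j R hR
    refine ⟨EIS_int (aF j) hi, fun z => h z + (c' : ℂ), hh.add (differentiableOn_const _), fun z hz _ => ?_⟩
    rw [← EIS_TL (aF j)]
    show TU (Fd' D u b g u' b' g') j z + c' = _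
    rw [he z hz, Complex.add_re, Complex.ofReal_re]
    ring

end

end Pool.Agent.DL
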