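import Pool.Agent.helper22.DL.SpecE2

/-! EIS: extension of a solution of the fixed point equation to the plane. -/

set_option autoImplicit false

namespace Pool.Agent.DL

open Matrix Complex MeasureTheory Set Filter Topology
open scoped ComplexOrder Manifold ContDiff ComplexConjugate

noncomputable section

/-! ### Gluing rules -/

theorem EIS_Ls (U : Bool → ℂ → ℝ) (j : Bool) {z : ℂ} (hz : z ≠ 0) (h : U j z = U (!j) z⁻¹) :
    Real.exp (Ls (U j) z) = (‖z‖ ^ 4)⁻¹ * Real.exp (Ls (U (!j)) z⁻¹) := by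
  have hn : 0 < ‖z‖ := norm_pos_iff.2 hz
  have h1 : (1 + ‖z‖ ^ 2) = ‖z‖ ^ 2 * (1 + ‖z⁻¹‖ ^ 2) := by
    rw [norm_inv]; field_simp; ring
  unfold Ls
  rw [h, h1, Real.log_mul (by positivity) (by positivity), Real.log_pow]
  rw [show U (!j) z⁻¹ - 2 * (((2 : ℕ) : ℝ) * Real.log ‖z‖ + Real.log (1 + ‖z⁻¹‖ ^ 2))
      = - (Real.log (‖z‖ ^ 4)) + (U (!j) z⁻¹ - 2 * Real.log (1 + ‖z⁻¹‖ ^ 2)) by
    rw [Real.log_pow]; push_cast; ring]
  rw [Real.exp_add, Real.exp_neg, Real.exp_log (by positivity)]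

theorem EIS_Wt (κ : ℝ) {z : ℂ} (hz : z ≠ 0) : Wt κ z = (‖z‖ ^ 8)⁻¹ * Wt κ z⁻¹ := by
  have hn : 0 < ‖z‖ := norm_pos_iff.2 hz
  have h1 : ‖1 - z⁻¹ ^ 8‖ = ‖1 - z ^ 8‖ * (‖z‖ ^ 8)⁻¹ := by
    rw [← norm_pow, ← norm_inv, ← norm_mul, ← norm_neg (1 - z⁻¹ ^ 8)]
    congr 1
    field_simp
    ring
  unfold Wt
  rw [h1, div_mul_eq_div_div_swap]
  field_simp

theorem EIS_Wt1 (κ : ℝ) (z : ℂ) : Wt κ z = κ * Wt 1 z := by
  unfold Wt; ring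

theorem EIS_n2 (z : ℂ) : ((‖z‖ ^ 2 : ℝ) : ℂ) = z * conj z := by
  rw [Complex.mul_conj, Complex.normSq_eq_norm_sq]

theorem EIS_n4 (z : ℂ) : ((‖z‖ ^ 4 : ℝ) : ℂ) = (z * conj z) ^ 2 := by
  rw [← EIS_n2]; push_cast; ring

theorem EIS_n8 (z : ℂ) : ((‖z‖ ^ 8 : ℝ) : ℂ) = (z * conj z) ^ 4 := by
  rw [← EIS_n2]; push_cast; ring

theorem EIS_conj_ne {z : ℂ} (hz : z ≠ 0) : conj z ≠ 0 := by
  simpa using hz

theorem EIS_xx (p b z : ℂ) : xx (z ^ 4 * p) (z ^ 2 * b) = z ^ 4 * xx p b := by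
  unfold xx; ring

theorem EIS_yy (p r b z : ℂ) : yy (z ^ 4 * p) (z ^ 6 * r) (z ^ 2 * b) = z ^ 6 * yy p r b := by
  unfold yy; ring

theorem EIS_exp2 (L : ℝ) : Real.exp (2 * L) = Real.exp L ^ 2 := by
  rw [two_mul, Real.exp_add, sq]

theorem EIS_QQ (p r b : ℂ) (L L' : ℝ) {z : ℂ} (hz : z ≠ 0)
    (hE : Real.exp L = (‖z‖ ^ 4)⁻¹ * Real.exp L') :
    QQ (z ^ 4 * p) (z ^ 6 * r) L (z ^ 2 * b) = z ^ 2 * QQ p r L' b := by
  have hc := EIS_conj_ne hz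
  unfold QQ
  rw [EIS_xx, EIS_yy, EIS_exp2, EIS_exp2, hE]
  push_cast
  rw [show ((‖z‖ : ℂ) ^ 4) = (z * conj z) ^ 2 by rw [← EIS_n4]; push_cast; ring]
  simp only [map_mul, map_pow]
  field_simp

theorem EIS_RR (p r b : ℂ) (L L' : ℝ) {z : ℂ} (hz : z ≠ 0)
    (hE : Real.exp L = (‖z‖ ^ 4)⁻¹ * Real.exp L') :
    RR (z ^ 4 * p) (z ^ 6 * r) L (z ^ 2 * b) = ‖z‖ ^ 4 * RR p r L' b := by
  have hn : 0 < ‖z‖ := norm_pos_iff.2 hz
  unfold RR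
  rw [EIS_xx, EIS_yy, EIS_exp2, EIS_exp2, Real.exp_neg, Real.exp_neg, hE, norm_mul, norm_mul,
    norm_pow, norm_pow]
  have := Real.exp_pos L'
  field_simp

theorem EIS_phi {D : Dat} (hD : D.Valid) (U : Bool → ℂ → ℝ) (B : Bool → ℂ → ℂ) (j : Bool) {z : ℂ}
    (hz : z ≠ 0) (hU : U j z = U (!j) z⁻¹) (hB : B j z = z ^ 2 * B (!j) z⁻¹) :
    phi D U B j z = z⁻¹ ^ 4 * (conj z)⁻¹ ^ 2 * phi D U B (!j) z⁻¹ := by
  have hc := EIS_conj_ne hz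
  unfold phi
  rw [hD.gp j z hz, hD.gr j z hz, hB, EIS_QQ _ _ _ _ _ hz (EIS_Ls U j hz hU), EIS_Wt D.κ hz]
  push_cast
  rw [show ((‖z‖ : ℂ) ^ 8) = (z * conj z) ^ 4 by rw [← EIS_n8]; push_cast; ring]
  simp only [map_mul, map_pow]
  field_simp

theorem EIS_bet (U : Bool → ℂ → ℝ) (G : Bool → ℂ → ℂ) (j : Bool) {z : ℂ}
    (hz : z ≠ 0) (hU : U j z = U (!j) z⁻¹) (hG : G j z = -z⁻¹ ^ 4 * G (!j) z⁻¹) :
    bet U G j z = -z ^ 2 * (conj z)⁻¹ ^ 2 * bet U G (!j) z⁻¹ := by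
  have hc := EIS_conj_ne hz
  have hn : 0 < ‖z‖ := norm_pos_iff.2 hz
  have h1 : Real.exp (-(Ls (U j) z)) = ‖z‖ ^ 4 * Real.exp (-(Ls (U (!j)) z⁻¹)) := by
    rw [Real.exp_neg, EIS_Ls U j hz hU, mul_inv, inv_inv, Real.exp_neg]
  unfold bet
  rw [h1, hG]
  push_cast
  rw [show ((‖z‖ : ℂ) ^ 4) = (z * conj z) ^ 2 by rw [← EIS_n4]; push_cast; ring]
  simp only [map_mul, map_pow, map_neg, map_inv₀]
  field_simp

theorem EIS_Fd {D : Dat} (hD : D.Valid) (U : Bool → ℂ → ℝ) (B G : Bool → ℂ → ℂ) (j : Bool) {z : ℂ}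
    (hz : z ≠ 0) (hU : U j z = U (!j) z⁻¹) (hB : B j z = z ^ 2 * B (!j) z⁻¹)
    (hG : G j z = -z⁻¹ ^ 4 * G (!j) z⁻¹) :
    Fd D U B G j z = ‖z‖⁻¹ ^ 4 * Fd D U B G (!j) z⁻¹ := by
  have hn : 0 < ‖z‖ := norm_pos_iff.2 hz
  have h1 : Real.exp (-(Ls (U j) z)) = ‖z‖ ^ 4 * Real.exp (-(Ls (U (!j)) z⁻¹)) := by
    rw [Real.exp_neg, EIS_Ls U j hz hU, mul_inv, inv_inv, Real.exp_neg]
  unfold Fd
  rw [h1, hG, hD.gp j z hz, hD.gr j z hz, hB, EIS_RR _ _ _ _ _ hz (EIS_Ls U j hz hU),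
    EIS_Wt D.κ hz, hD.gs j z hz, norm_mul, norm_neg, norm_pow, norm_inv]
  field_simp
  ring

/-! ### Measure theory -/

theorem EIS_ns (hKC : EKC_stmt) : ∀ᵐ z : ℂ, z ^ 8 ≠ 1 := by
  have h := hKC.2.2.1
  rw [ae_iff]
  simpa using h

theorem EIS_meas (hKC : EKC_stmt) {E : Type} [NormedAddCommGroup E] [SecondCountableTopology E] {f : ℂ → E}
    (hf : ContinuousOn f (Dk ∩ Ns)) : AEStronglyMeasurable f (volume.restrict Dk) := by
  have hmN : MeasurableSet Ns := hKC.2.2.2.2.2.2.2.1.measurableSet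
  have hm : MeasurableSet (Dk ∩ Ns) := measurableSet_closedBall.inter hmN
  have h1 : volume.restrict Dk = volume.restrict (Dk ∩ Ns) := by
    apply Measure.restrict_congr_set
    filter_upwards [EIS_ns hKC] with z hz
    apply propext
    exact ⟨fun h => ⟨h, hz⟩, fun h => h.1⟩
  rw [h1]
  borelize E
  exact hf.aestronglyMeasurable hm

theorem EIS_unif {P : Bool → ℝ → Prop} (h : ∀ j, ∃ C, P j C)
    (mono : ∀ j C C', C ≤ C' → P j C → P j C') : ∃ C, 0 ≤ C ∧ ∀ j, P j C := by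
  choose C hC using h
  refine ⟨max 0 (max (C true) (C false)), le_max_left _ _, ?_⟩
  intro j
  refine mono j (C j) _ ?_ (hC j)
  cases j
  · exact le_trans (le_max_right _ _) (le_max_right _ _)
  · exact le_trans (le_max_left _ _) (le_max_right _ _)

theorem EIS_Ls_cont {u : ℂ → ℝ} {S : Set ℂ} (h : ContinuousOn u S) : ContinuousOn (Ls u) S := by
  unfold Ls
  refine h.sub ?_
  refine (Continuous.continuousOn ?_)
  refine continuous_const.mul (Continuous.log (by fun_prop) ?_)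
  intro z
  positivity

theorem EIS_TC {φ ψ : ℂ → ℂ} (h : φ =ᵐ[volume] ψ) (S : Set ℂ) (z : ℂ) : TC φ S z = TC ψ S z := by
  unfold TC
  congr 1
  apply integral_congr_ae
  filter_upwards [ae_restrict_of_ae h] with x hx
  rw [hx]

theorem EIS_TL {φ ψ : ℂ → ℝ} (h : φ =ᵐ[volume] ψ) (S : Set ℂ) (z : ℂ) : TL φ S z = TL ψ S z := by
  unfold TL
  congr 1
  apply integral_congr_ae
  filter_upwards [ae_restrict_of_ae h] with x hx
  rw [hx]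

theorem EIS_int {E : Type} [NormedAddCommGroup E] {φ ψ : ℂ → E} (h : φ =ᵐ[volume] ψ) {S : Set ℂ}
    (hi : IntegrableOn φ S) : IntegrableOn ψ S :=
  hi.congr (ae_restrict_of_ae h)

/-- `mt⁻²` against the weight on the disc. -/
theorem EIS_mt2 {z : ℂ} (hz : z ∈ Dk) (h8 : z ^ 8 ≠ 1) : (mt z)⁻¹ ^ 2 ≤ 2 * Wt 1 z := by
  have hz1 : ‖z‖ ≤ 1 := by simpa using hz
  have hpos : 0 < ‖1 - z ^ 8‖ := norm_pos_iff.2 (sub_ne_zero.2 (Ne.symm h8))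
  have h2 : ‖1 - z ^ 8‖ ≤ 2 := by
    refine (norm_sub_le _ _).trans ?_
    rw [norm_one, norm_pow]
    have := pow_le_one₀ (n := 8) (norm_nonneg z) hz1
    linarith
  unfold mt Wt
  set t := ‖1 - z ^ 8‖ with ht
  have h3 : (t ^ (1 / 4 : ℝ))⁻¹ ^ 2 = (Real.sqrt t)⁻¹ := by
    rw [inv_pow, ← Real.rpow_natCast, ← Real.rpow_mul hpos.le, Real.sqrt_eq_rpow]
    norm_num
  rw [h3]
  have hs : 0 < Real.sqrt t := Real.sqrt_pos.2 hpos
  have h4 : Real.sqrt t ≤ 2 := by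
    rw [Real.sqrt_le_left (by norm_num)]
    linarith
  have h5 : t = Real.sqrt t * Real.sqrt t := (Real.mul_self_sqrt hpos.le).symm
  rw [inv_eq_one_div, mul_one_div, div_le_div_iff₀ hs hpos]
  nlinarith

theorem EIS_Wt_half {z : ℂ} (hz : z ∈ Dk) (h8 : z ^ 8 ≠ 1) : 1 ≤ 2 * Wt 1 z := by
  have hz1 : ‖z‖ ≤ 1 := by simpa using hz
  have hpos : 0 < ‖1 - z ^ 8‖ := norm_pos_iff.2 (sub_ne_zero.2 (Ne.symm h8))
  have h2 : ‖1 - z ^ 8‖ ≤ 2 := by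
    refine (norm_sub_le _ _).trans ?_
    rw [norm_one, norm_pow]
    have := pow_le_one₀ (n := 8) (norm_nonneg z) hz1
    linarith
  unfold Wt
  rw [mul_one_div, le_div_iff₀ hpos]
  linarith

theorem EIS_Wt_nonneg (z : ℂ) : 0 ≤ Wt 1 z := by
  unfold Wt; positivity

theorem EIS_mt_nonneg (z : ℂ) : 0 ≤ (mt z)⁻¹ := by
  unfold mt; positivity

/-! ### Densities of a solution -/

theorem EIS_QQ_cont {D : Dat} (hD : D.Valid) {u : Bool → ℂ → ℝ} {b : Bool → ℂ → ℂ}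
    (cu : ∀ j, ContinuousOn (u j) Dk) (cb : ∀ j, ContinuousOn (b j) Dk) (j : Bool) :
    ContinuousOn (fun z => QQ (D.p j z) (D.r j z) (Ls (u j) z) (b j z)) Dk := by
  have hL := EIS_Ls_cont (cu j)
  have hp := (hD.hp j).continuous
  have hr := (hD.hr j).continuous
  have hb := cb j
  unfold QQ xx yy
  fun_prop

theorem EIS_RR_cont {D : Dat} (hD : D.Valid) {u : Bool → ℂ → ℝ} {b : Bool → ℂ → ℂ}
    (cu : ∀ j, ContinuousOn (u j) Dk) (cb : ∀ j, ContinuousOn (b j) Dk) (j : Bool) :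
    ContinuousOn (fun z => RR (D.p j z) (D.r j z) (Ls (u j) z) (b j z)) Dk := by
  have hL := EIS_Ls_cont (cu j)
  have hp := (hD.hp j).continuous
  have hr := (hD.hr j).continuous
  have hb := cb j
  unfold RR xx yy
  fun_prop

theorem EIS_bd {f : Bool → ℂ → ℂ} (hf : ∀ j, ContinuousOn (f j) Dk) :
    ∃ C, 0 ≤ C ∧ ∀ j, ∀ z ∈ Dk, ‖f j z‖ ≤ C := by
  refine EIS_unif (P := fun j C => ∀ z ∈ Dk, ‖f j z‖ ≤ C) ?_ ?_
  · intro j
    exact (isCompact_closedBall (0 : ℂ) 1).exists_bound_of_continuousOn (hf j)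
  · intro j C C' hC h z hz
    exact (h z hz).trans hC

theorem EIS_bdR {f : Bool → ℂ → ℝ} (hf : ∀ j, ContinuousOn (f j) Dk) :
    ∃ C, 0 ≤ C ∧ ∀ j, ∀ z ∈ Dk, |f j z| ≤ C := by
  refine EIS_unif (P := fun j C => ∀ z ∈ Dk, |f j z| ≤ C) ?_ ?_
  · intro j
    exact (isCompact_closedBall (0 : ℂ) 1).exists_bound_of_continuousOn (hf j)
  · intro j C C' hC h z hz
    exact (h z hz).trans hC

theorem EIS_phi_dens (hKC : EKC_stmt) {D : Dat} (hD : D.Valid) {u : Bool → ℂ → ℝ} {b : Bool → ℂ → ℂ}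
    (cu : ∀ j, ContinuousOn (u j) Dk) (cb : ∀ j, ContinuousOn (b j) Dk) :
    (∀ j, AEStronglyMeasurable (phi D u b j) (volume.restrict Dk)) ∧
    ∃ C, 0 ≤ C ∧ ∀ j, ∀ z ∈ Dk, z ^ 8 ≠ 1 → ‖phi D u b j z‖ ≤ C * Wt 1 z := by
  have hW : ContinuousOn (Wt D.κ) Ns := (hKC.2.2.2.2.2.2.1 D.κ).continuousOn
  constructor
  · intro j
    apply EIS_meas hKC
    have h1 : ContinuousOn (fun z => QQ (D.p j z) (D.r j z) (Ls (u j) z) (b j z)) (Dk ∩ Ns) :=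
      (EIS_QQ_cont hD cu cb j).mono inter_subset_left
    have h2 : ContinuousOn (Wt D.κ) (Dk ∩ Ns) := hW.mono inter_subset_right
    unfold phi
    fun_prop
  · obtain ⟨C, hC0, hC⟩ := EIS_bd (EIS_QQ_cont hD cu cb)
    have hκ : 0 ≤ D.κ := by linarith [hD.hκ]
    refine ⟨D.κ * C, by positivity, ?_⟩
    intro j z hz _
    unfold phi
    rw [norm_mul, RCLike.norm_conj, Complex.norm_real, Real.norm_eq_abs, EIS_Wt1,
      abs_of_nonneg (mul_nonneg hκ (EIS_Wt_nonneg z))]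
    have := hC j z hz
    have h0 := EIS_Wt_nonneg z
    calc D.κ * Wt 1 z * ‖QQ (D.p j z) (D.r j z) (Ls (u j) z) (b j z)‖
        ≤ D.κ * Wt 1 z * C := by gcongr
      _ = D.κ * C * Wt 1 z := by ring

theorem EIS_bet_dens (hKC : EKC_stmt) {u : Bool → ℂ → ℝ} {g : Bool → ℂ → ℂ}
    (cu : ∀ j, ContinuousOn (u j) Dk) (cg : ∀ j, ContinuousOn (g j) (Dk ∩ Ns)) {C₀ : ℝ}
    (hg : ∀ j, ∀ z ∈ Dk, z ^ 8 ≠ 1 → ‖g j z‖ ≤ C₀ * (mt z)⁻¹) :
    (∀ j, AEStronglyMeasurable (bet u g j) (volume.restrict Dk)) ∧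
    ∃ C, 0 ≤ C ∧ ∀ j, ∀ z ∈ Dk, z ^ 8 ≠ 1 → ‖bet u g j z‖ ≤ C * (mt z)⁻¹ := by
  constructor
  · intro j
    apply EIS_meas hKC
    have h1 : ContinuousOn (Ls (u j)) (Dk ∩ Ns) := (EIS_Ls_cont (cu j)).mono inter_subset_left
    have h2 := cg j
    unfold bet
    fun_prop
  · have hf : ∀ j, ContinuousOn (fun z => Real.exp (-(Ls (u j) z))) Dk := by
      intro j
      have := EIS_Ls_cont (cu j)
      fun_prop
    obtain ⟨M, hM0, hM⟩ := EIS_bdR hf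
    refine ⟨M * |C₀|, by positivity, ?_⟩
    intro j z hz h8
    unfold bet
    rw [norm_mul, RCLike.norm_conj, Complex.norm_real, Real.norm_eq_abs]
    have h1 := hM j z hz
    have h2 := hg j z hz h8
    have h3 := EIS_mt_nonneg z
    have h4 : C₀ * (mt z)⁻¹ ≤ |C₀| * (mt z)⁻¹ := by gcongr; exact le_abs_self _
    calc |Real.exp (-(Ls (u j) z))| * ‖g j z‖ ≤ M * (|C₀| * (mt z)⁻¹) := by
          gcongr
          exact h2.trans h4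
      _ = M * |C₀| * (mt z)⁻¹ := by ring

theorem EIS_Fd_dens (hKC : EKC_stmt) {D : Dat} (hD : D.Valid) {u : Bool → ℂ → ℝ} {b g : Bool → ℂ → ℂ}
    (cu : ∀ j, ContinuousOn (u j) Dk) (cb : ∀ j, ContinuousOn (b j) Dk)
    (cg : ∀ j, ContinuousOn (g j) (Dk ∩ Ns)) {C₀ : ℝ}
    (hg : ∀ j, ∀ z ∈ Dk, z ^ 8 ≠ 1 → ‖g j z‖ ≤ C₀ * (mt z)⁻¹) :
    (∀ j, AEStronglyMeasurable (Fd D u b g j) (volume.restrict Dk)) ∧
    ∃ C, 0 ≤ C ∧ ∀ j, ∀ z ∈ Dk, z ^ 8 ≠ 1 → |Fd D u b g j z| ≤ C * Wt 1 z := by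
  have hW : ContinuousOn (Wt D.κ) Ns := (hKC.2.2.2.2.2.2.1 D.κ).continuousOn
  constructor
  · intro j
    apply EIS_meas hKC
    have h1 : ContinuousOn (Ls (u j)) (Dk ∩ Ns) := (EIS_Ls_cont (cu j)).mono inter_subset_left
    have h2 := cg j
    have h3 : ContinuousOn (fun z => RR (D.p j z) (D.r j z) (Ls (u j) z) (b j z)) (Dk ∩ Ns) :=
      (EIS_RR_cont hD cu cb j).mono inter_subset_left
    have h4 : ContinuousOn (Wt D.κ) (Dk ∩ Ns) := hW.mono inter_subset_right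
    have h5 : ContinuousOn (D.s j) (Dk ∩ Ns) := (hD.cs j).continuousOn
    have h6 : Continuous (fun z : ℂ => 2 / (1 + ‖z‖ ^ 2) ^ 2) := by
      refine Continuous.div continuous_const (by fun_prop) ?_
      intro z
      positivity
    have h7 : ContinuousOn (fun z : ℂ => 2 / (1 + ‖z‖ ^ 2) ^ 2) (Dk ∩ Ns) := h6.continuousOn
    unfold Fd
    fun_prop
  · have hf : ∀ j, ContinuousOn (fun z => Real.exp (-(Ls (u j) z))) Dk := by
      intro j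
      have := EIS_Ls_cont (cu j)
      fun_prop
    obtain ⟨M, hM0, hM⟩ := EIS_bdR hf
    have hf2 : ∀ j, ContinuousOn (fun z => RR (D.p j z) (D.r j z) (Ls (u j) z) (b j z) + D.s j z) Dk :=
      fun j => (EIS_RR_cont hD cu cb j).add (hD.cs j).continuousOn
    obtain ⟨M2, hM20, hM2⟩ := EIS_bdR hf2
    have hκ : 0 ≤ D.κ := by linarith [hD.hκ]
    refine ⟨M * C₀ ^ 2 * 2 + D.κ * M2 + 4, by positivity, ?_⟩
    intro j z hz h8
    have h1 := hM j z hz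
    have h2 := hg j z hz h8
    have h3 := hM2 j z hz
    have h4 := EIS_Wt_nonneg z
    have h5 := EIS_mt2 hz h8
    have h6 := EIS_Wt_half hz h8
    have h7 : ‖g j z‖ ^ 2 ≤ C₀ ^ 2 * (2 * Wt 1 z) := by
      calc ‖g j z‖ ^ 2 ≤ (C₀ * (mt z)⁻¹) ^ 2 := by gcongr
        _ = C₀ ^ 2 * (mt z)⁻¹ ^ 2 := by ring
        _ ≤ C₀ ^ 2 * (2 * Wt 1 z) := by gcongr
    have h8' : |2 / (1 + ‖z‖ ^ 2) ^ 2| ≤ 4 * Wt 1 z := by
      rw [abs_of_nonneg (by positivity)]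
      have h9 : 2 / (1 + ‖z‖ ^ 2) ^ 2 ≤ 2 := by
        rw [div_le_iff₀ (by positivity)]
        nlinarith [sq_nonneg ‖z‖, norm_nonneg z]
      linarith
    unfold Fd
    calc |Real.exp (-(Ls (u j) z)) * ‖g j z‖ ^ 2 +
          Wt D.κ z * (RR (D.p j z) (D.r j z) (Ls (u j) z) (b j z) + D.s j z) +
          2 / (1 + ‖z‖ ^ 2) ^ 2|
        ≤ |Real.exp (-(Ls (u j) z)) * ‖g j z‖ ^ 2| +
          |Wt D.κ z * (RR (D.p j z) (D.r j z) (Ls (u j) z) (b j z) + D.s j z)| +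
          |2 / (1 + ‖z‖ ^ 2) ^ 2| := abs_add_three _ _ _
      _ ≤ M * (C₀ ^ 2 * (2 * Wt 1 z)) + (D.κ * Wt 1 z) * M2 + 4 * Wt 1 z := by
          gcongr ?_ + ?_ + ?_
          · rw [abs_mul, abs_of_nonneg (sq_nonneg ‖g j z‖)]
            gcongr
          · rw [abs_mul, EIS_Wt1, abs_of_nonneg (mul_nonneg hκ h4)]
            gcongr
      _ = (M * C₀ ^ 2 * 2 + D.κ * M2 + 4) * Wt 1 z := by ring

/-! ### The main statement -/

theorem EIS_ex {E : Type} [Zero E] {f1 f2 f : ℂ → E} (h1 : ∀ z ∈ Dk, z ^ 8 ≠ 1 → f1 z = f z)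
    (h2 : ∀ z, ¬ ‖z‖ ≤ 1 → z ^ 8 ≠ 1 → f2 z = f z) (hKC : EKC_stmt) :
    (fun z => if ‖z‖ ≤ 1 then f1 z else f2 z) =ᵐ[volume] f := by
  filter_upwards [EIS_ns hKC] with z hz
  by_cases h : ‖z‖ ≤ 1
  · rw [if_pos h]
    exact h1 z (by simpa using h) hz
  · rw [if_neg h]
    exact h2 z h hz

theorem EIS_inv_mem {z : ℂ} (h : ¬ ‖z‖ ≤ 1) : z ≠ 0 ∧ z⁻¹ ∈ Dk := by
  push Not at h
  have h0 : z ≠ 0 := by
    rintro rfl
    simp at h
    linarith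
  refine ⟨h0, ?_⟩
  rw [Metric.mem_closedBall, dist_zero_right, norm_inv]
  exact inv_le_one_of_one_le₀ h.le

theorem EIS_inv8 {z : ℂ} (h : z ^ 8 ≠ 1) : z⁻¹ ^ 8 ≠ 1 := by
  intro h1
  apply h
  rw [inv_pow, inv_eq_one] at h1
  exact h1

theorem EIS (hKC : EKC_stmt) (hIB : EIB_stmt) (hIG : EIG_stmt) (hIU : EIU_stmt) : EIS_stmt := by
  intro D u b g c P hD hS
  obtain ⟨mphi, Cp, hCp0, hCp⟩ := EIS_phi_dens hKC hD hS.cu hS.cb
  obtain ⟨gc, gbd, gg, gr⟩ := hIG (phi D u b) Cp mphi hCp hS.mom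
  have cg : ∀ j, ContinuousOn (g j) (Dk ∩ Ns) := fun j =>
    ((gc j).mono inter_subset_right).congr (fun z hz => hS.eg j z hz.1 hz.2)
  obtain ⟨Cg, hCg⟩ := gbd 2
  have hDk2 : ∀ z ∈ Dk, z ∈ Metric.ball (0 : ℂ) 2 := by
    intro z hz
    have : ‖z‖ ≤ 1 := by simpa using hz
    rw [Metric.mem_ball, dist_zero_right]
    linarith
  have hg : ∀ j, ∀ z ∈ Dk, z ^ 8 ≠ 1 → ‖g j z‖ ≤ Cg * (mt z)⁻¹ := by
    intro j z hz h8
    rw [hS.eg j z hz h8]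
    exact hCg j z (hDk2 z hz) h8
  obtain ⟨mbet, Cb, hCb0, hCb⟩ := EIS_bet_dens hKC hS.cu cg hg
  obtain ⟨bc, bg, br⟩ := hIB (bet u g) Cb P mbet hCb
  obtain ⟨mFd, CF, hCF0, hCF⟩ := EIS_Fd_dens hKC hD hS.cu hS.cb cg hg
  obtain ⟨uc, ug, ur⟩ := hIU (Fd D u b g) CF mFd hCF hS.mass
  set U : Bool → ℂ → ℝ := fun j z => TU (Fd D u b g) j z + c with hUdef
  set B : Bool → ℂ → ℂ := fun j z => TB (bet u g) j z + Pq P j z with hBdef
  set G : Bool → ℂ → ℂ := TG (phi D u b) with hGdef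
  have eU : ∀ j, ∀ z ∈ Dk, u j z = U j z := fun j z hz => hS.eu j z hz
  have eB : ∀ j, ∀ z ∈ Dk, b j z = B j z := fun j z hz => hS.eb j z hz
  have eG : ∀ j, ∀ z ∈ Dk, z ^ 8 ≠ 1 → g j z = G j z := fun j z hz h8 => hS.eg j z hz h8
  have gU : ∀ j z, z ≠ 0 → U j z = U (!j) z⁻¹ := by
    intro j z hz
    show TU (Fd D u b g) j z + c = TU (Fd D u b g) (!j) z⁻¹ + c
    rw [ug j z hz]
  have gB : ∀ j z, z ≠ 0 → B j z = z ^ 2 * B (!j) z⁻¹ := fun j z hz => bg j z hz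
  have gG : ∀ j z, z ≠ 0 → z ^ 8 ≠ 1 → G j z = -z⁻¹ ^ 4 * G (!j) z⁻¹ := fun j z hz h8 => gg j z hz h8
  have eLs : ∀ j, ∀ z ∈ Dk, Ls (u j) z = Ls (U j) z := by
    intro j z hz
    unfold Ls
    rw [eU j z hz]
  have ephi : ∀ j, ∀ z ∈ Dk, z ^ 8 ≠ 1 → phi D u b j z = phi D U B j z := by
    intro j z hz _
    unfold phi
    rw [eLs j z hz, eB j z hz]
  have ebet : ∀ j, ∀ z ∈ Dk, z ^ 8 ≠ 1 → bet u g j z = bet U G j z := by
    intro j z hz h8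
    unfold bet
    rw [eLs j z hz, eG j z hz h8]
  have eFd : ∀ j, ∀ z ∈ Dk, z ^ 8 ≠ 1 → Fd D u b g j z = Fd D U B G j z := by
    intro j z hz h8
    unfold Fd
    rw [eLs j z hz, eB j z hz, eG j z hz h8]
  have aB : ∀ j, exB (bet u g) j =ᵐ[volume] bet U G j := by
    intro j
    refine EIS_ex (f1 := fun z => bet u g j z)
      (f2 := fun z => -z ^ 2 * (conj z)⁻¹ ^ 2 * bet u g (!j) z⁻¹) (f := bet U G j) (ebet j) ?_ hKC
    intro z hz h8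
    obtain ⟨h0, hi⟩ := EIS_inv_mem hz
    rw [EIS_bet U G j h0 (gU j z h0) (gG j z h0 h8), ebet (!j) z⁻¹ hi (EIS_inv8 h8)]
  have aG : ∀ j, exG (phi D u b) j =ᵐ[volume] phi D U B j := by
    intro j
    refine EIS_ex (f1 := fun z => phi D u b j z)
      (f2 := fun z => z⁻¹ ^ 4 * (conj z)⁻¹ ^ 2 * phi D u b (!j) z⁻¹) (f := phi D U B j) (ephi j) ?_ hKC
    intro z hz h8
    obtain ⟨h0, hi⟩ := EIS_inv_mem hz
    rw [EIS_phi hD U B j h0 (gU j z h0) (gB j z h0), ephi (!j) z⁻¹ hi (EIS_inv8 h8)]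
  have aF : ∀ j, exF (Fd D u b g) j =ᵐ[volume] Fd D U B G j := by
    intro j
    refine EIS_ex (f1 := fun z => Fd D u b g j z)
      (f2 := fun z => ‖z‖⁻¹ ^ 4 * Fd D u b g (!j) z⁻¹) (f := Fd D U B G j) (eFd j) ?_ hKC
    intro z hz h8
    obtain ⟨h0, hi⟩ := EIS_inv_mem hz
    rw [EIS_Fd hD U B G j h0 (gU j z h0) (gB j z h0) (gG j z h0 h8), eFd (!j) z⁻¹ hi (EIS_inv8 h8)]
  refine ⟨?_, bc, gc, gbd, gU, gB, gG, ?_, ?_, ?_⟩
  · intro j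
    exact (uc j).add continuous_const
  · intro j R hR
    obtain ⟨hi, h, hh, he⟩ := br j R hR
    refine ⟨EIS_int (aB j) hi, h, hh, fun z hz _ => ?_⟩
    rw [← EIS_TC (aB j)]
    exact he z hz
  · intro j R hR
    obtain ⟨hi, h, hh, he⟩ := gr j R hR
    refine ⟨EIS_int (aG j) hi, h, hh, fun z hz h8 => ?_⟩
    rw [← EIS_TC (aG j)]
    exact he z hz h8
  · intro j R hR
    obtain ⟨hi, h, hh, he⟩ := ur j R hR
    refine ⟨EIS_int (aF j) hi, fun z => h z + (c : ℂ), hh.add (differentiableOn_const _), fun z hz _ => ?_⟩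
    rw [← EIS_TL (aF j)]
    show TU (Fd D u b g) j z + c = _
    rw [he z hz, Complex.add_re, Complex.ofReal_re]
    ring

end

end Pool.Agent.DL
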