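import Pool.Agent.helper65.DL.EIS

/-! ESV: the source of the scalar homotopy and the trivial solution. -/

set_option autoImplicit false

namespace Pool.Agent.DL

open Matrix Complex MeasureTheory Set Filter Topology
open scoped ComplexOrder Manifold ContDiff ComplexConjugate

noncomputable section

theorem ESV_p {D : Dat} (hD : D.Valid) (j : Bool) : ContDiff ℝ ∞ (D.p j) :=
  (hD.hp j).contDiff.restrict_scalars ℝ

theorem ESV_cont {D : Dat} (hD : D.Valid) (j : Bool) : Continuous (shf D.κ D.p j) := by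
  have hp := (hD.hp j).continuous
  have hκ : 0 < D.κ := by linarith [hD.hκ]
  unfold shf
  refine (((Continuous.div (by fun_prop) (by fun_prop) ?_).sub (by fun_prop)).add
    (Continuous.div (by fun_prop) (by fun_prop) ?_)).neg
  · intro z; positivity
  · intro z; positivity

theorem ESV_glue {D : Dat} (hD : D.Valid) (j : Bool) (z : ℂ) (hz : z ≠ 0) :
    shf D.κ D.p j z = ‖z‖ ^ 4 * shf D.κ D.p (!j) z⁻¹ := by
  have hn : 0 < ‖z‖ := norm_pos_iff.2 hz
  have hκ : 0 < D.κ := by linarith [hD.hκ]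
  have h1 : ‖1 - z ^ 8‖ = ‖1 - z⁻¹ ^ 8‖ * ‖z‖ ^ 8 := by
    rw [← norm_pow, ← norm_mul, ← norm_neg (1 - z ^ 8)]
    congr 1
    field_simp
    ring
  have h2 : 1 + ‖z‖ ^ 2 = ‖z‖ ^ 2 * (1 + ‖z⁻¹‖ ^ 2) := by
    rw [norm_inv]; field_simp; ring
  have h3 : (0 : ℝ) < 1 + ‖z⁻¹‖ ^ 2 := by positivity
  unfold shf
  rw [hD.gp j z hz, h1, h2, norm_mul, norm_pow]
  set w := 1 + ‖z⁻¹‖ ^ 2 with hw
  set a := ‖D.p (!j) z⁻¹‖ with ha
  set m := ‖1 - z⁻¹ ^ 8‖ with hm
  field_simp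

theorem ESV_smooth {D : Dat} (hD : D.Valid) (j : Bool) {f : ℂ → ℂ} {S : Set ℂ}
    (hf : ContDiffOn ℝ ∞ f S) (hn : ContDiffOn ℝ ∞ (fun y => ‖1 - f y ^ 8‖) S) :
    ContDiffOn ℝ ∞ (fun y => shf D.κ D.p j (f y)) S := by
  have hκ : 0 < D.κ := by linarith [hD.hκ]
  have h1 : ContDiffOn ℝ ∞ (fun y => D.p j (f y)) S := (ESV_p hD j).comp_contDiffOn hf
  have h2 : ContDiffOn ℝ ∞ (fun y => ‖D.p j (f y)‖ ^ 2) S := h1.norm_sq ℝ
  have h3 : ContDiffOn ℝ ∞ (fun y => ‖f y‖ ^ 2) S := hf.norm_sq ℝ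
  have h4 : ContDiffOn ℝ ∞ (fun y => (1 + ‖f y‖ ^ 2) ^ 2) S := (contDiffOn_const.add h3).pow 2
  unfold shf
  refine (((h2.div h4 ?_).sub h4).add (ContDiffOn.div (contDiffOn_const.mul hn)
    (contDiffOn_const.mul h4) ?_)).neg
  · intro y _; positivity
  · intro y _; positivity

theorem ESV (hKC : EKC_stmt) (hPS : EPS_stmt) : ESV_stmt := by
  intro D hD
  have hκ : 0 < D.κ := by linarith [hD.hκ]
  refine ⟨⟨hD.hκ, hD.hp, hD.hr, hD.gp, hD.gr, ESV_cont hD, ESV_glue hD, ?_, ?_⟩, ?_⟩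
  · intro j
    refine ESV_smooth hD j (f := fun z => z) contDiffOn_id ?_
    refine ContDiffOn.norm ℝ (by fun_prop) ?_
    intro z hz
    exact sub_ne_zero.2 (Ne.symm hz)
  · intro j d hd
    obtain ⟨-, hdiff, hy, -⟩ := hPS d hd
    have hcd : ContDiffOn ℝ ∞ (psi d) (Metric.ball 0 1) :=
      (hdiff.contDiffOn Metric.isOpen_ball).restrict_scalars ℝ
    refine ESV_smooth hD j (f := psi d) hcd ?_
    have h1 : ContDiffOn ℝ ∞ (fun y : ℂ => ‖2 * y / (1 + y ^ 2)‖ ^ 2) (Metric.ball 0 1) := by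
      have hN : ContDiffOn ℂ ∞ (fun y : ℂ => 2 * y) (Metric.ball 0 1) := by fun_prop
      have hM : ContDiffOn ℂ ∞ (fun y : ℂ => 1 + y ^ 2) (Metric.ball 0 1) := by fun_prop
      refine ContDiffOn.norm_sq ℝ ((hN.div hM ?_).restrict_scalars ℝ)
      intro y hy' h0
      have h2 : y ^ 2 = -1 := by linear_combination h0
      have h3 : ‖y‖ ^ 2 = 1 := by rw [← norm_pow, h2]; simp
      have h4 : ‖y‖ < 1 := by simpa using hy'
      nlinarith [norm_nonneg y]
    refine h1.congr ?_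
    intro y hy'
    show ‖1 - psi d y ^ 8‖ = ‖2 * y / (1 + y ^ 2)‖ ^ 2
    rw [(hy y hy').1, norm_pow]
  · intro hr
    have hphi : phi (D.sh.so 1) (fun _ _ => 0) zf = fun _ _ => 0 := by
      funext j z
      show (Wt D.κ z : ℂ) * conj (QQ (D.p j z) (D.r j z) (Ls (fun _ => 0) z) 0) = 0
      rw [hr j z]
      unfold QQ xx yy
      simp
    have hbet : bet (fun _ _ => 0) zf = fun _ _ => 0 := by
      funext j z
      unfold bet
      simp
    have hexp : ∀ z : ℂ, Real.exp (Ls (fun _ => 0) z) = ((1 + ‖z‖ ^ 2) ^ 2)⁻¹ := by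
      intro z
      unfold Ls
      rw [zero_sub, Real.exp_neg, show 2 * Real.log (1 + ‖z‖ ^ 2) = Real.log ((1 + ‖z‖ ^ 2) ^ 2) by
        rw [Real.log_pow]; push_cast; ring, Real.exp_log (by positivity)]
    have hFd : ∀ j z, z ^ 8 ≠ 1 → Fd (D.sh.so 1) (fun _ _ => 0) zf zf j z = 0 := by
      intro j z h8
      have hne : ‖1 - z ^ 8‖ ≠ 0 := norm_ne_zero_iff.2 (sub_ne_zero.2 (Ne.symm h8))
      show Real.exp (-(Ls (fun _ => 0) z)) * ‖(0 : ℂ)‖ ^ 2 +
        Wt D.κ z * (RR (D.p j z) (D.r j z) (Ls (fun _ => 0) z) 0 + 1 * shf D.κ D.p j z) +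
        2 / (1 + ‖z‖ ^ 2) ^ 2 = 0
      rw [hr j z]
      have hRR : RR (D.p j z) 0 (Ls (fun _ => 0) z) 0 = ((1 + ‖z‖ ^ 2) ^ 2)⁻¹ * ‖D.p j z‖ ^ 2 - (1 + ‖z‖ ^ 2) ^ 2 := by
        unfold RR xx yy
        rw [Real.exp_neg, hexp]
        simp
      rw [hRR]
      unfold shf Wt
      have h1 : (0 : ℝ) < 1 + ‖z‖ ^ 2 := by positivity
      set w := 1 + ‖z‖ ^ 2 with hw
      set a := ‖D.p j z‖ with ha
      set m := ‖1 - z ^ 8‖ with hm
      rw [norm_zero]
      field_simp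
      ring
    have hFae : ∀ j, Fd (D.sh.so 1) (fun _ _ => 0) zf zf j =ᵐ[volume] fun _ => 0 := by
      intro j
      filter_upwards [EIS_ns hKC] with z hz
      exact hFd j z hz
    have hint : ∀ (j : Bool) (k : ℂ → ℝ), ∫ ξ in Dk, k ξ * Fd (D.sh.so 1) (fun _ _ => 0) zf zf j ξ = 0 := by
      intro j k
      have : ∫ ξ in Dk, k ξ * Fd (D.sh.so 1) (fun _ _ => 0) zf zf j ξ = ∫ ξ in Dk, (0 : ℝ) := by
        apply integral_congr_ae
        filter_upwards [ae_restrict_of_ae (hFae j)] with z hz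
        rw [hz, mul_zero]
      rw [this]
      simp
    have hint1 : ∀ (j : Bool), ∫ ξ in Dk, Fd (D.sh.so 1) (fun _ _ => 0) zf zf j ξ = 0 := by
      intro j
      have := hint j (fun _ => 1)
      simpa using this
    refine ⟨fun j => continuousOn_const, fun j => continuousOn_const, ?_, ?_, ?_, ?_, ?_⟩
    · intro j z _ _
      rw [hphi]
      unfold TG
      simp
    · intro j z _
      rw [hbet]
      unfold TB Pq
      cases j <;> simp
    · intro j z _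
      unfold TU
      rw [hint j (fun ξ => Real.log ‖z - ξ‖), hint (!j) (fun ξ => Real.log ‖1 - z * ξ‖)]
      simp
    · rw [hint1, hint1]
      simp
    · intro k
      rw [hphi]
      simp

end

end Pool.Agent.DL
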