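import Pool.Agent.helper22.DL.SpecE3
import Pool.Agent.helper78.DL.HT

/-! ETE: the converse of HT. -/

set_option autoImplicit false

namespace Pool.Agent.DL

open Matrix Complex MeasureTheory Set Filter Topology
open scoped ComplexOrder Manifold ContDiff ComplexConjugate

section
variable {X : Type} [TopologicalSpace X] [ChartedSpace ℂ X]

theorem ETE_inv (C : Cov X) (q₂ : Fam X) (i : C.ι) (x : X) :
    (uni C q₂ 1 i x)⁻¹ = uni C q₂ (-1) i x := by
  apply Matrix.inv_eq_right_inv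
  rw [HT_mul, add_neg_cancel, HT_zero]

theorem ETE_A (C : Cov X) (q₂ q₃ : Fam X) (i : C.ι) (x : X) :
    (uni C q₂ 1 i x)⁻¹ * (hitS C q₂ q₃).A i x * uni C q₂ 1 i x =
      (hitchin3 C q₂ q₃).A i x := by
  rw [← HT_A, HT_inv, ETE_inv]
  have h : uni C q₂ (-1) i x * uni C q₂ 1 i x = 1 := by
    rw [HT_mul, neg_add_cancel, HT_zero]
  calc uni C q₂ (-1) i x * (uni C q₂ 1 i x * (hitchin3 C q₂ q₃).A i x * uni C q₂ (-1) i x) *
        uni C q₂ 1 i x
      = (uni C q₂ (-1) i x * uni C q₂ 1 i x) * (hitchin3 C q₂ q₃).A i x *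
        (uni C q₂ (-1) i x * uni C q₂ 1 i x) := by simp only [Matrix.mul_assoc]
    _ = _ := by rw [h, Matrix.one_mul, Matrix.mul_one]

theorem ETE_g (C : Cov X) (hC : C.Valid) (q₂ q₃ : Fam X) (i j : C.ι) (x : X)
    (hx : x ∈ C.U i ∩ C.U j) :
    (hitS C q₂ q₃).g i j x * uni C q₂ 1 j x = uni C q₂ 1 i x * (hitS C q₂ q₃).g i j x := by
  have hi : C.η i (chartAt ℂ x) x ≠ 0 := hC.2.2.2 i x hx.1
  have hj : C.η j (chartAt ℂ x) x ≠ 0 := hC.2.2.2 j x hx.2
  unfold uni hitS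
  ext a b
  fin_cases a <;> fin_cases b <;>
    simp [Matrix.mul_apply, Fin.sum_univ_three, Cov.rat, quo]
  field_simp

end

/-- ETE -/
theorem ETE (hGA : GA_stmt) (hGE : GE_stmt) : ETE_stmt := by
  intro X _ _ C q₂ q₃ hC hq2 hq3 H hH
  have hdet : ∀ i x, IsUnit (uni C q₂ 1 i x).det := fun i x => by
    rw [HT_det]
    exact isUnit_one
  refine ⟨⟨?_, ?_⟩, ?_⟩
  · intro i j x hx
    have h1 := hH.1.glue i j x hx
    have h2 := ETE_g C hC q₂ q₃ i j x hx
    show (uni C q₂ 1 j x)ᴴ * H j x * uni C q₂ 1 j x =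
      ((hitS C q₂ q₃).g i j x)ᴴ * ((uni C q₂ 1 i x)ᴴ * H i x * uni C q₂ 1 i x) *
        (hitS C q₂ q₃).g i j x
    rw [h1]
    calc (uni C q₂ 1 j x)ᴴ * (((hitS C q₂ q₃).g i j x)ᴴ * H i x * (hitS C q₂ q₃).g i j x) *
          uni C q₂ 1 j x
        = ((hitS C q₂ q₃).g i j x * uni C q₂ 1 j x)ᴴ * H i x *
            ((hitS C q₂ q₃).g i j x * uni C q₂ 1 j x) := by
          rw [Matrix.conjTranspose_mul]
          simp only [Matrix.mul_assoc]
      _ = _ := by
          rw [h2, Matrix.conjTranspose_mul]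
          simp only [Matrix.mul_assoc]
  · intro i e he
    have hopen : IsOpen (e.target ∩ e.symm ⁻¹' C.U i) := e.symm.isOpen_inter_preimage (hC.1 i)
    have hquo : HoloOn (quo q₂ (C.η i) 2) (C.U i ∩ Set.univ) :=
      ((hGA X (C.U i) (C.η i) (hC.2.2.1 i) (hC.2.2.2 i)).2.2 2 q₂ Set.univ (hC.1 i) isOpen_univ
        hq2).1
    have hquo' : DifferentiableOn ℂ (fun z => quo q₂ (C.η i) 2 (e.symm z))
        (e.target ∩ e.symm ⁻¹' C.U i) := by
      have := hquo e he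
      rwa [Set.inter_univ] at this
    have hHM : HM (e.target ∩ e.symm ⁻¹' C.U i) (fun z => uni C q₂ 1 i (e.symm z)) := by
      intro a b
      unfold uni
      fin_cases a <;> fin_cases b <;> simp
      exact hquo'.div_const 2
    have h1 := (hGE 3 (e.target ∩ e.symm ⁻¹' C.U i) (fun z => (hitS C q₂ q₃).A i (e.symm z))
      (fun z => H i (e.symm z)) (fun z => uni C q₂ 1 i (e.symm z))
      (fun z => ‖C.η i e (e.symm z)‖ ^ 2) hopen (hH.1.loc i e he) hHM (fun z _ => hdet i _)).1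
    have e1 : (fun z => (uni C q₂ 1 i (e.symm z))⁻¹ * (hitS C q₂ q₃).A i (e.symm z) *
        uni C q₂ 1 i (e.symm z)) = fun z => (hitchin3 C q₂ q₃).A i (e.symm z) := by
      funext z
      exact ETE_A C q₂ q₃ i (e.symm z)
    rw [e1] at h1
    exact h1
  · intro i x hx
    show ((uni C q₂ 1 i x)ᴴ * H i x * uni C q₂ 1 i x).det = 1
    rw [Matrix.det_mul, Matrix.det_mul, Matrix.det_conjTranspose, HT_det, hH.2 i x hx]
    simp

end Pool.Agent.DL
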