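import Pool.Agent.helper67.DL.SpecG

/-! # dl, module SM: strong maximum principle in a disc (Hopf) -/

namespace Pool.Agent.DL

open Matrix Complex Filter Topology
open scoped ComplexOrder Manifold ContDiff

noncomputable section

/-- the barrier `1/|z - z₁|` -/
theorem SM_bar (hRA : RA_stmt) (z₁ z : ℂ) (hz : z ≠ z₁) :
    ContDiffAt ℝ 2 (fun w => ‖w - z₁‖⁻¹) z ∧ 0 < lap (fun w => ‖w - z₁‖⁻¹) z := by
  have hr : 0 < ‖z - z₁‖ := norm_pos_iff.2 (sub_ne_zero.2 hz)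
  have hg : ContDiffAt ℝ 2 (fun r : ℝ => r⁻¹) ‖z - z₁‖ := contDiffAt_inv ℝ hr.ne'
  obtain ⟨h1, h2⟩ := hRA.1 (fun r : ℝ => r⁻¹) z₁ z hz hg
  refine ⟨h1, ?_⟩
  rw [h2]
  have e1 : deriv (fun r : ℝ => r⁻¹) ‖z - z₁‖ = -(‖z - z₁‖ ^ 2)⁻¹ := by
    rw [deriv_inv]
  have e2 : iteratedDeriv 2 (fun r : ℝ => r⁻¹) ‖z - z₁‖ = 2 * (‖z - z₁‖ ^ 3)⁻¹ := by
    rw [iteratedDeriv_succ, iteratedDeriv_one]
    have : deriv (fun r : ℝ => r⁻¹) = fun r => -(r ^ 2)⁻¹ := by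
      funext r
      rw [deriv_inv]
    rw [this]
    have h3 : HasDerivAt (fun r : ℝ => -(r ^ 2)⁻¹) (-(-((2 : ℕ) * ‖z - z₁‖ ^ (2 - 1)) /
        (‖z - z₁‖ ^ 2) ^ 2)) ‖z - z₁‖ :=
      ((hasDerivAt_pow 2 ‖z - z₁‖).inv (pow_ne_zero 2 hr.ne')).neg
    rw [h3.deriv]
    push_cast
    field_simp
  rw [e1, e2]
  have : 0 < (‖z - z₁‖ ^ 3)⁻¹ := by positivity
  have e3 : (2 * (‖z - z₁‖ ^ 3)⁻¹ + -(‖z - z₁‖ ^ 2)⁻¹ / ‖z - z₁‖) / 4 = (‖z - z₁‖ ^ 3)⁻¹ / 4 := by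
    field_simp
    ring
  rw [e3]
  positivity

/-- the comparison in the annulus -/
theorem SM_ann (hMX : MX_stmt) (hLA : LA_stmt) (hRA : RA_stmt) (u : ℂ → ℝ) (z₁ : ℂ) (ρ M : ℝ)
    (hρ : 0 < ρ) (hu : ∀ z, ‖z - z₁‖ ≤ ρ → ContDiffAt ℝ 2 u z)
    (hl : ∀ z, ‖z - z₁‖ ≤ ρ → 0 ≤ lap u z)
    (hM : ∀ z, ‖z - z₁‖ ≤ ρ → u z ≤ M) (hM' : ∀ z, ‖z - z₁‖ < ρ → u z < M) :
    ∃ ε : ℝ, 0 < ε ∧ ∀ z, ρ / 2 ≤ ‖z - z₁‖ → ‖z - z₁‖ ≤ ρ →
      u z + ε * (‖z - z₁‖⁻¹ - ρ⁻¹) ≤ M := by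
  -- the inner circle
  obtain ⟨κ, hκ, hκu⟩ : ∃ κ : ℝ, 0 < κ ∧ ∀ z, ‖z - z₁‖ = ρ / 2 → u z ≤ M - κ := by
    have hcomp : IsCompact (Metric.sphere z₁ (ρ / 2)) := isCompact_sphere _ _
    have hne : (Metric.sphere z₁ (ρ / 2)).Nonempty := by
      refine ⟨z₁ + ((ρ / 2 : ℝ) : ℂ), ?_⟩
      rw [mem_sphere_iff_norm, add_sub_cancel_left, Complex.norm_real, Real.norm_eq_abs,
        abs_of_pos (by positivity)]
    have hcont : ContinuousOn u (Metric.sphere z₁ (ρ / 2)) := by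
      intro z hz
      rw [mem_sphere_iff_norm] at hz
      exact (hu z (by rw [hz]; linarith)).continuousAt.continuousWithinAt
    obtain ⟨z₀, hz₀, hmax⟩ := hcomp.exists_isMaxOn hne hcont
    rw [mem_sphere_iff_norm] at hz₀
    refine ⟨M - u z₀, ?_, ?_⟩
    · have := hM' z₀ (by rw [hz₀]; linarith)
      linarith
    · intro z hz
      have : u z ≤ u z₀ := hmax (by rw [mem_sphere_iff_norm]; exact hz)
      linarith
  refine ⟨κ * ρ, by positivity, ?_⟩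
  set ε := κ * ρ with hε
  have hε0 : 0 < ε := by positivity
  set w : ℂ → ℝ := fun z => u z + ε * (‖z - z₁‖⁻¹ - ρ⁻¹) with hw
  set A : Set ℂ := {z | ρ / 2 ≤ ‖z - z₁‖ ∧ ‖z - z₁‖ ≤ ρ} with hA
  have hAc : IsCompact A := by
    have h1 : A = Metric.closedBall z₁ ρ ∩ {z | ρ / 2 ≤ ‖z - z₁‖} := by
      ext z
      simp only [hA, Set.mem_ofPred_eq, Set.mem_inter_iff, mem_closedBall_iff_norm]
      tauto
    rw [h1]
    exact (isCompact_closedBall _ _).inter_right (isClosed_le continuous_const (by fun_prop))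
  have hne : ∀ z, ρ / 2 ≤ ‖z - z₁‖ → z ≠ z₁ := by
    rintro z hz rfl
    rw [sub_self, norm_zero] at hz
    linarith
  have hwd : ∀ z ∈ A, ContDiffAt ℝ 2 w z := by
    rintro z ⟨h1, h2⟩
    exact (hu z h2).add (contDiffAt_const.mul ((SM_bar hRA z₁ z (hne z h1)).1.sub contDiffAt_const))
  have hwc : ContinuousOn w A := fun z hz => (hwd z hz).continuousAt.continuousWithinAt
  intro z hz1 hz2
  have hzA : z ∈ A := ⟨hz1, hz2⟩
  obtain ⟨z₀, ⟨h1, h2⟩, hmax⟩ := hAc.exists_isMaxOn ⟨z, hzA⟩ hwc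
  have hle : w z ≤ w z₀ := hmax hzA
  refine le_trans hle ?_
  rcases eq_or_lt_of_le h1 with h1' | h1'
  · -- inner circle
    have e1 := hκu z₀ h1'.symm
    have e2 : ε * (‖z₀ - z₁‖⁻¹ - ρ⁻¹) = κ := by
      rw [← h1', hε]
      field_simp
      ring
    show u z₀ + ε * (‖z₀ - z₁‖⁻¹ - ρ⁻¹) ≤ M
    rw [e2]
    linarith
  rcases eq_or_lt_of_le h2 with h2' | h2'
  · -- outer circle
    show u z₀ + ε * (‖z₀ - z₁‖⁻¹ - ρ⁻¹) ≤ M
    rw [h2', sub_self, mul_zero, add_zero]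
    exact hM z₀ h2
  · exfalso
    have hloc : IsLocalMax w z₀ := by
      have hnb : A ∈ 𝓝 z₀ := by
        have h3 : {z : ℂ | ρ / 2 < ‖z - z₁‖ ∧ ‖z - z₁‖ < ρ} ∈ 𝓝 z₀ := by
          refine IsOpen.mem_nhds ?_ ⟨h1', h2'⟩
          have hcn : Continuous fun z : ℂ => ‖z - z₁‖ := by fun_prop
          exact (isOpen_lt continuous_const hcn).inter (isOpen_lt hcn continuous_const)
        exact mem_of_superset h3 fun z hz => ⟨hz.1.le, hz.2.le⟩
      exact hmax.isLocalMax hnb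
    have h4 := hMX w z₀ (hwd z₀ ⟨h1, h2⟩) hloc
    obtain ⟨hb1, hb2⟩ := SM_bar hRA z₁ z₀ (hne z₀ h1)
    have e1 : lap (fun z => ‖z - z₁‖⁻¹ - ρ⁻¹) z₀ = lap (fun z => ‖z - z₁‖⁻¹) z₀ := by
      have e2 := hLA.1 (fun z => ‖z - z₁‖⁻¹) (fun _ => (1 : ℝ)) z₀ 1 (-ρ⁻¹) hb1 contDiffAt_const
      have e3 : lap (fun _ : ℂ => (1 : ℝ)) z₀ = 0 := by
        unfold lap
        simp [iteratedDeriv_const]
      rw [e3, mul_zero, add_zero, one_mul] at e2
      rw [← e2]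
      congr 1
      funext z
      ring
    have e2 := hLA.1 u (fun z => ‖z - z₁‖⁻¹ - ρ⁻¹) z₀ 1 ε (hu z₀ h2) (hb1.sub contDiffAt_const)
    have e3 : (fun z => 1 * u z + ε * (‖z - z₁‖⁻¹ - ρ⁻¹)) = w := by
      funext z
      rw [one_mul]
    rw [e3, e1, one_mul] at e2
    have h5 := hl z₀ h2
    have h6 : 0 < ε * lap (fun z => ‖z - z₁‖⁻¹) z₀ := mul_pos hε0 hb2
    linarith

/-- Hopf: a touching point is impossible -/
theorem SM_hopf (hMX : MX_stmt) (hLA : LA_stmt) (hRA : RA_stmt) (u : ℂ → ℝ) (z₁ y : ℂ) (ρ M : ℝ)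
    (hρ : 0 < ρ) (hu : ∀ z, ‖z - z₁‖ ≤ ρ → ContDiffAt ℝ 2 u z)
    (hl : ∀ z, ‖z - z₁‖ ≤ ρ → 0 ≤ lap u z)
    (hM : ∀ z, ‖z - z₁‖ ≤ ρ → u z ≤ M) (hM' : ∀ z, ‖z - z₁‖ < ρ → u z < M)
    (hy : ‖y - z₁‖ = ρ) (hyM : u y = M) (hymax : IsLocalMax u y) : False := by
  obtain ⟨ε, hε, H⟩ := SM_ann hMX hLA hRA u z₁ ρ M hρ hu hl hM hM'
  have hd : HasFDerivAt u (fderiv ℝ u y) y :=
    ((hu y hy.le).differentiableAt (by norm_num)).hasFDerivAt
  rw [hymax.fderiv_eq_zero] at hd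
  have hg : HasDerivAt (fun t : ℝ => y + (t : ℂ) * (z₁ - y)) (z₁ - y) 0 := by
    have h1 : HasDerivAt (fun t : ℝ => (t : ℂ)) 1 0 := Complex.ofRealCLM.hasDerivAt
    simpa using (h1.mul_const (z₁ - y)).const_add y
  have hφ : HasDerivAt (fun t : ℝ => u (y + (t : ℂ) * (z₁ - y))) 0 0 := by
    have h2 : HasFDerivAt u (0 : ℂ →L[ℝ] ℝ) (y + ((0 : ℝ) : ℂ) * (z₁ - y)) := by
      simpa using hd
    exact h2.comp_hasDerivAt (0 : ℝ) hg
  have hs := hasDerivAt_iff_tendsto_slope_zero.1 hφ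
  have hs2 : Tendsto (fun t : ℝ => t⁻¹ • (u (y + ((0 + t : ℝ) : ℂ) * (z₁ - y)) -
      u (y + ((0 : ℝ) : ℂ) * (z₁ - y)))) (𝓝[>] 0) (𝓝 0) :=
    hs.mono_left (nhdsWithin_mono _ fun t ht => ne_of_gt ht)
  have hev : ∀ᶠ t : ℝ in 𝓝[>] 0, t⁻¹ • (u (y + ((0 + t : ℝ) : ℂ) * (z₁ - y)) -
      u (y + ((0 : ℝ) : ℂ) * (z₁ - y))) ≤ -(ε * ρ⁻¹) := by
    have h1 : Set.Ioo (0 : ℝ) (1 / 2) ∈ 𝓝[>] (0 : ℝ) := Ioo_mem_nhdsGT (by norm_num)
    filter_upwards [h1] with t ht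
    obtain ⟨ht0, ht1⟩ := ht
    have e0 : y + ((0 : ℝ) : ℂ) * (z₁ - y) = y := by simp
    rw [e0, hyM, zero_add, smul_eq_mul]
    have en : ‖y + (t : ℂ) * (z₁ - y) - z₁‖ = (1 - t) * ρ := by
      have : y + (t : ℂ) * (z₁ - y) - z₁ = ((1 - t : ℝ) : ℂ) * (y - z₁) := by push_cast; ring
      rw [this, norm_mul, Complex.norm_real, Real.norm_eq_abs, abs_of_pos (by linarith), hy]
    have h2 := H (y + (t : ℂ) * (z₁ - y)) (by rw [en]; nlinarith) (by rw [en]; nlinarith)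
    rw [en] at h2
    have h3 : t * ρ⁻¹ ≤ ((1 - t) * ρ)⁻¹ - ρ⁻¹ := by
      have h4 : 0 < 1 - t := by linarith
      have h5 : ((1 - t) * ρ)⁻¹ - ρ⁻¹ - t * ρ⁻¹ = t ^ 2 / ((1 - t) * ρ) := by
        field_simp
        ring
      have h6 : 0 ≤ t ^ 2 / ((1 - t) * ρ) := by positivity
      linarith
    have h7 : u (y + (t : ℂ) * (z₁ - y)) - M ≤ -(ε * ρ⁻¹) * t := by
      have := mul_le_mul_of_nonneg_left h3 hε.le
      nlinarith
    calc t⁻¹ * (u (y + (t : ℂ) * (z₁ - y)) - M) ≤ t⁻¹ * (-(ε * ρ⁻¹) * t) :=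
          mul_le_mul_of_nonneg_left h7 (by positivity)
      _ = -(ε * ρ⁻¹) := by field_simp
  have h0 : (0 : ℝ) ≤ -(ε * ρ⁻¹) := le_of_tendsto hs2 hev
  have : 0 < ε * ρ⁻¹ := by positivity
  linarith

theorem SM (hMX : MX_stmt) (hLA : LA_stmt) (hRA : RA_stmt) : SM_stmt := by
  intro u c r hr hu hl hmax
  have hud : ∀ z ∈ Metric.ball c r, ContDiffAt ℝ 2 u z := fun z hz =>
    hu.contDiffAt (Metric.isOpen_ball.mem_nhds hz)
  set M := u c with hM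
  -- openness of the set where the maximum is attained
  have key : ∀ y ∈ Metric.ball c r, u y = M → ∀ᶠ z in 𝓝 y, u z = M := by
    intro y hy hyM
    obtain ⟨δ, hδ, hδb⟩ : ∃ δ > 0, Metric.ball y (2 * δ) ⊆ Metric.ball c r := by
      obtain ⟨η, hη, hηb⟩ := Metric.isOpen_iff.1 Metric.isOpen_ball y hy
      exact ⟨η / 2, by positivity, by rwa [mul_div_cancel₀ _ (two_ne_zero' ℝ)]⟩
    have hfin : ∀ z ∈ Metric.ball y δ, u z = M := by
      by_contra hcon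
      push Not at hcon
      obtain ⟨z₁, hz₁, hz₁M⟩ := hcon
      have hsub : Metric.closedBall z₁ δ ⊆ Metric.ball c r := by
        refine Set.Subset.trans ?_ hδb
        intro z hz
        rw [Metric.mem_closedBall] at hz
        rw [Metric.mem_ball] at hz₁ ⊢
        have := dist_triangle z z₁ y
        linarith
      set K : Set ℂ := {z | z ∈ Metric.closedBall z₁ δ ∧ u z = M} with hK
      have hKc : IsCompact K := by
        have h1 : ContinuousOn u (Metric.closedBall z₁ δ) := fun z hz =>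
          (hud z (hsub hz)).continuousAt.continuousWithinAt
        have h2 : IsClosed K := by
          have := h1.preimage_isClosed_of_isClosed Metric.isClosed_closedBall
            (isClosed_singleton (x := M))
          exact this
        exact (isCompact_closedBall z₁ δ).of_isClosed_subset h2 fun z hz => hz.1
      have hyK : y ∈ K := by
        refine ⟨?_, hyM⟩
        rw [Metric.mem_closedBall, dist_comm]
        exact (Metric.mem_ball.1 hz₁).le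
      obtain ⟨y₀, hy₀, hmin⟩ := hKc.exists_isMinOn ⟨y, hyK⟩
        (f := fun z => ‖z - z₁‖) (by fun_prop)
      have hy₀δ : ‖y₀ - z₁‖ ≤ δ := by
        have := hy₀.1
        rwa [mem_closedBall_iff_norm] at this
      have hρ : 0 < ‖y₀ - z₁‖ := by
        rw [norm_pos_iff, sub_ne_zero]
        rintro rfl
        exact hz₁M hy₀.2
      have hin : ∀ z, ‖z - z₁‖ ≤ ‖y₀ - z₁‖ → z ∈ Metric.ball c r := by
        intro z hz
        apply hsub
        rw [mem_closedBall_iff_norm]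
        linarith
      have hy₀b : y₀ ∈ Metric.ball c r := hin y₀ le_rfl
      refine SM_hopf hMX hLA hRA u z₁ y₀ ‖y₀ - z₁‖ M hρ (fun z hz => hud z (hin z hz))
        (fun z hz => hl z (hin z hz)) (fun z hz => hmax z (hin z hz)) ?_ rfl hy₀.2 ?_
      · intro z hz
        refine lt_of_le_of_ne (hmax z (hin z hz.le)) ?_
        intro hzM
        have hzK : z ∈ K := ⟨by rw [mem_closedBall_iff_norm]; linarith, hzM⟩
        have h3 : ‖y₀ - z₁‖ ≤ ‖z - z₁‖ := hmin hzK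
        linarith
      · have h4 : ∀ᶠ z in 𝓝 y₀, z ∈ Metric.ball c r := Metric.isOpen_ball.mem_nhds hy₀b
        filter_upwards [h4] with z hz
        rw [hy₀.2]
        exact hmax z hz
    filter_upwards [Metric.ball_mem_nhds y hδ] with z hz
    exact hfin z hz
  -- connectedness
  have hpre : IsPreconnected (Metric.ball c r) := (convex_ball c r).isPreconnected
  have hps : PreconnectedSpace (Metric.ball c r) := Subtype.preconnectedSpace hpre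
  have hclo : IsClopen {x : Metric.ball c r | u x = M} := by
    constructor
    · have h1 : Continuous fun x : Metric.ball c r => u x := by
        have h2 : ContinuousOn u (Metric.ball c r) := hu.continuousOn
        exact h2.domRestrict
      exact isClosed_singleton.preimage h1
    · rw [isOpen_iff_mem_nhds]
      rintro ⟨y, hy⟩ hyM
      have := key y hy hyM
      exact (continuous_subtype_val.continuousAt (x := (⟨y, hy⟩ : Metric.ball c r))).eventually this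
  have huniv := hclo.eq_univ ⟨⟨c, Metric.mem_ball_self hr⟩, rfl⟩
  intro z hz
  have : (⟨z, hz⟩ : Metric.ball c r) ∈ {x : Metric.ball c r | u x = M} := by
    rw [huniv]
    trivial
  exact this

end

end Pool.Agent.DL
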